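import Pool.Agent.EE.Core

/-! Codimension two. -/

namespace Pool.Agent.EE

open Finset Pool.Agent.MP_943f09_an

theorem flat_of_ind {N n : ℕ} {μ : ℝ} {b : Matrix (Fin N) (Fin N) ℝ} (h : Ind N n μ b)
    (hn : n + 2 ≤ N) : Flat N b := by
  obtain ⟨K, hK, hneg⟩ := h.neg
  have h2 : 1 < Module.finrank ℝ K := by omega
  have : Nontrivial K := Module.nontrivial_of_finrank_pos (R := ℝ) (by omega)
  obtain ⟨x, hx⟩ := exists_ne (0 : K)
  obtain ⟨y, hy⟩ := exists_linearIndependent_pair_of_one_lt_finrank h2 hx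
  rw [LinearIndependent.pair_iff] at hy
  refine flat_of b h.symm (x : Fin N → ℝ) (y : Fin N → ℝ) (fun s t hst => hy s t ?_)
    (fun s t => hneg _ ?_)
  · exact Subtype.ext (by simpa using hst)
  · exact K.add_mem (K.smul_mem _ x.2) (K.smul_mem _ y.2)

/-- If the form is nonpositive on a plane and negative somewhere, there is a null vector `f`
orthogonal to a negative vector `g`, unless the form is negative definite on some plane. -/
theorem exists_null {N : ℕ} {b : Matrix (Fin N) (Fin N) ℝ} (hs : ∀ i j, b i j = b j i)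
    (u v w : Fin N → ℝ) (hli : ∀ s t : ℝ, s • u + t • v = 0 → s = 0 ∧ t = 0)
    (hu : Matrix.toBilin' b u u ≤ 0) (hv : Matrix.toBilin' b v v ≤ 0)
    (huv : Matrix.toBilin' b u v ^ 2 ≤ Matrix.toBilin' b u u * Matrix.toBilin' b v v)
    (hw : Matrix.toBilin' b w w < 0) (hno : ¬ NegDef b u v) :
    ∃ f g : Fin N → ℝ, f ≠ 0 ∧ Matrix.toBilin' b f f = 0 ∧ Matrix.toBilin' b f g = 0 ∧
      Matrix.toBilin' b g g < 0 := by
  have hcomm := toBilin'_comm hs
  set B := Matrix.toBilin' b with hB
  have hu0 : u ≠ 0 := fun h => by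
    have := (hli 1 0 (by rw [h]; simp)).1
    norm_num at this
  have hv0 : v ≠ 0 := fun h => by
    have := (hli 0 1 (by rw [h]; simp)).2
    norm_num at this
  rcases eq_or_lt_of_le hu with h0 | h0
  · have huv0 : B u v = 0 := by
      rw [h0, zero_mul] at huv
      exact pow_eq_zero_iff two_ne_zero |>.1 (le_antisymm huv (sq_nonneg _))
    rcases eq_or_lt_of_le hv with h1 | h1
    · by_cases hv' : B v w = 0
      · exact ⟨v, w, hv0, h1, hv', hw⟩
      · refine ⟨(B v w) • u + (-(B u w)) • v, w, fun h => hv' (hli _ _ h).1, ?_, ?_, hw⟩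
        · simp only [map_add, map_smul, LinearMap.add_apply, LinearMap.smul_apply, smul_eq_mul,
            h0, h1, huv0, hcomm v u]
          ring
        · simp only [map_add, map_smul, LinearMap.add_apply, LinearMap.smul_apply, smul_eq_mul]
          ring
    · exact ⟨u, v, hu0, h0, huv0, h1⟩
  · have hdet : B u u * B v v ≤ B u v ^ 2 := by
      by_contra hc
      exact hno ⟨h0, not_le.1 hc⟩
    have hdet' : B u v ^ 2 = B u u * B v v := le_antisymm huv hdet
    refine ⟨(-(B u v / B u u)) • u + (1 : ℝ) • v, u, fun h => ?_, ?_, ?_, h0⟩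
    · have := (hli _ _ h).2
      norm_num at this
    · simp only [map_add, map_smul, LinearMap.add_apply, LinearMap.smul_apply, smul_eq_mul,
        hcomm v u]
      have h0' := h0.ne
      field_simp
      nlinarith
    · simp only [map_add, map_smul, LinearMap.add_apply, LinearMap.smul_apply, smul_eq_mul,
        hcomm v u]
      have h0' := h0.ne
      field_simp
      ring

/-- A null vector orthogonal to a negative vector is in the kernel, unless the form is negative
definite on some plane. -/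
theorem ker_of_null {N : ℕ} {b : Matrix (Fin N) (Fin N) ℝ} (hs : ∀ i j, b i j = b j i)
    (f g : Fin N → ℝ) (hf : Matrix.toBilin' b f f = 0) (hfg : Matrix.toBilin' b f g = 0)
    (hg : Matrix.toBilin' b g g < 0) (hno : ∀ x y, ¬ NegDef b x y) (y : Fin N → ℝ) :
    Matrix.toBilin' b y f = 0 := by
  have hcomm := toBilin'_comm hs
  unfold NegDef at hno
  set B := Matrix.toBilin' b with hB
  by_contra hne
  -- choose the sign
  obtain ⟨w, hw⟩ : ∃ w, B f w < 0 := by
    rcases lt_or_gt_of_ne hne with h | h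
    · exact ⟨y, by rw [hcomm]; exact h⟩
    · exact ⟨-y, by rw [map_neg, hcomm]; linarith⟩
  have hkey : ∀ ε : ℝ, B g g < 0 ∧ B g (f + ε • w) ^ 2 = ε ^ 2 * B g w ^ 2 ∧
      B (f + ε • w) (f + ε • w) = ε * (2 * B f w + ε * B w w) := by
    intro ε
    refine ⟨hg, ?_, ?_⟩
    · simp only [map_add, map_smul, smul_eq_mul]
      rw [hcomm g f, hfg]; ring
    · simp only [map_add, map_smul, LinearMap.add_apply, LinearMap.smul_apply, smul_eq_mul, hf]
      rw [hcomm w f]; ring
  have hc : Continuous fun ε : ℝ => B g g * (2 * B f w + ε * B w w) - ε * B g w ^ 2 := by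
    fun_prop
  have he : ∀ᶠ ε in nhds (0 : ℝ), 0 < B g g * (2 * B f w + ε * B w w) - ε * B g w ^ 2 := by
    refine continuousAt_const.eventually_lt hc.continuousAt ?_
    simp only [zero_mul, add_zero, sub_zero]
    nlinarith
  obtain ⟨δ, hδ, hball⟩ := Metric.eventually_nhds_iff.1 he
  have hε := hball (y := δ / 2) (by rw [Real.dist_eq, sub_zero, abs_of_pos (by linarith)]; linarith)
  have hε0 : 0 < δ / 2 := by linarith
  generalize δ / 2 = ε at hε hε0
  obtain ⟨h1, h2, h3⟩ := hkey ε
  refine hno g (f + ε • w) ⟨h1, ?_⟩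
  rw [h2, h3]
  nlinarith

/-- At a null vector orthogonal to a negative vector all the constraints are active, unless some
admissible matrix is negative definite on some plane. -/
theorem crit_of_null {N : ℕ} {m : ℝ} (hm : 0 ≤ m) {b : Matrix (Fin N) (Fin N) ℝ}
    (h : Adm N m b) (f g : Fin N → ℝ) (hf : Matrix.toBilin' b f f = 0)
    (hfg : Matrix.toBilin' b f g = 0) (hg : Matrix.toBilin' b g g < 0)
    (hno : ∀ b', Adm N m b' → ∀ x y, ¬ NegDef b' x y) (i₀ j₀ : Fin N) (hij₀ : i₀ ≠ j₀) :
    b i₀ j₀ * (f i₀ * f j₀) = -(m * |f i₀ * f j₀|) := by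
  classical
  set σ : Fin N → ℝ := fun i => f i / |f i| with hσ
  have hσf : ∀ i, σ i * f i = |f i| := by
    intro i
    by_cases h : f i = 0
    · simp [hσ, h]
    · have h1 : |f i| ≠ 0 := abs_ne_zero.2 h
      simp only [hσ]
      rw [div_mul_eq_mul_div, div_eq_iff h1, ← abs_mul_abs_self]
  have hσabs : ∀ i, |σ i| ≤ 1 := by
    intro i
    simp only [hσ]
    rw [abs_div, abs_abs]
    exact div_self_le_one _
  set b1 : Matrix (Fin N) (Fin N) ℝ := Matrix.of fun i j => if i = j then 1 else
    -(m * (σ i * σ j)) with hb1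
  have hb1e : ∀ i j, b1 i j = if i = j then 1 else -(m * (σ i * σ j)) := fun i j => rfl
  have hadm1 : Adm N m b1 := by
    refine ⟨fun i j => ?_, fun i => ?_, fun i j hij => ?_⟩
    · rw [hb1e, hb1e]
      by_cases hij : i = j
      · subst hij; rfl
      · rw [if_neg hij, if_neg (Ne.symm hij)]; ring
    · rw [hb1e, if_pos rfl]
    · rw [hb1e, if_neg hij, abs_neg, abs_mul, abs_mul, abs_of_nonneg hm]
      have := mul_le_mul (hσabs i) (hσabs j) (abs_nonneg _) zero_le_one
      calc m * (|σ i| * |σ j|) ≤ m * (1 * 1) := mul_le_mul_of_nonneg_left this hm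
        _ = m := by ring
  have hterm : ∀ i j, f i * b1 i j * f j ≤ f i * b i j * f j := by
    intro i j
    rw [hb1e]
    by_cases hij : i = j
    · subst hij; rw [if_pos rfl, h.2.1]
    · rw [if_neg hij]
      have e : f i * -(m * (σ i * σ j)) * f j = -(m * |f i * f j|) := by
        rw [abs_mul, ← hσf i, ← hσf j]; ring
      rw [e]
      have h1 : |f i * b i j * f j| ≤ m * |f i * f j| := by
        rw [abs_mul, abs_mul, abs_mul]
        have := h.2.2 i j hij
        nlinarith [mul_nonneg (abs_nonneg (f i)) (abs_nonneg (f j))]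
      linarith [neg_abs_le (f i * b i j * f j)]
  have hle : Matrix.toBilin' b1 f f ≤ Matrix.toBilin' b f f := by
    rw [Matrix.toBilin'_apply, Matrix.toBilin'_apply]
    exact sum_le_sum fun i _ => sum_le_sum fun j _ => hterm i j
  rcases eq_or_lt_of_le hle with heq | hlt
  · rw [Matrix.toBilin'_apply, Matrix.toBilin'_apply] at heq
    have h1 := (sum_eq_sum_iff_of_le (fun i _ => sum_le_sum fun j _ => hterm i j)).1 heq i₀
      (mem_univ _)
    have h2 := (sum_eq_sum_iff_of_le (fun j _ => hterm i₀ j)).1 h1 j₀ (mem_univ _)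
    rw [hb1e, if_neg hij₀] at h2
    rw [abs_mul, ← hσf i₀, ← hσf j₀]
    linarith
  · exfalso
    rw [hf] at hlt
    -- the segment from `b` to `b1`
    set g1 : ℝ → (Fin N → ℝ) → (Fin N → ℝ) → ℝ := fun ε v w =>
      (1 - ε) * Matrix.toBilin' b v w + ε * Matrix.toBilin' b1 v w with hg1
    have hge : ∀ ε v w, Matrix.toBilin' ((1 - ε) • b + ε • b1) v w = g1 ε v w := by
      intro ε v w
      rw [map_add, map_smul, map_smul]
      rfl
    have hc : Continuous fun ε : ℝ => g1 ε g g * Matrix.toBilin' b1 f f -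
        ε * Matrix.toBilin' b1 g f ^ 2 := by
      simp only [hg1]; fun_prop
    have hc2 : Continuous fun ε : ℝ => g1 ε g g := by
      simp only [hg1]; fun_prop
    have e1 : ∀ᶠ ε in nhds (0 : ℝ), 0 < g1 ε g g * Matrix.toBilin' b1 f f -
        ε * Matrix.toBilin' b1 g f ^ 2 := by
      refine continuousAt_const.eventually_lt hc.continuousAt ?_
      simp only [hg1, sub_zero, one_mul, zero_mul, add_zero]
      exact mul_pos_of_neg_of_neg hg hlt
    have e2 : ∀ᶠ ε in nhds (0 : ℝ), g1 ε g g < 0 := by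
      refine hc2.continuousAt.eventually_lt continuousAt_const ?_
      simp only [hg1, sub_zero, one_mul, zero_mul, add_zero]
      exact hg
    have e3 : ∀ᶠ ε in nhds (0 : ℝ), ε < 1 := eventually_lt_nhds zero_lt_one
    obtain ⟨δ, hδ, hball⟩ := Metric.eventually_nhds_iff.1 (e1.and (e2.and e3))
    have hε := hball (y := δ / 2)
      (by rw [Real.dist_eq, sub_zero, abs_of_pos (by linarith)]; linarith)
    have hε0 : 0 < δ / 2 := by linarith
    generalize δ / 2 = ε at hε hε0
    obtain ⟨h1, h2, h3⟩ := hε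
    refine hno ((1 - ε) • b + ε • b1) ?_ g f ⟨?_, ?_⟩
    · refine ⟨fun i j => ?_, fun i => ?_, fun i j hij => ?_⟩
      · simp only [Matrix.add_apply, Matrix.smul_apply, h.1 i j, hadm1.1 i j]
      · simp only [Matrix.add_apply, Matrix.smul_apply, h.2.1 i, hadm1.2.1 i, smul_eq_mul]; ring
      · simp only [Matrix.add_apply, Matrix.smul_apply, smul_eq_mul]
        calc |(1 - ε) * b i j + ε * b1 i j| ≤ |(1 - ε) * b i j| + |ε * b1 i j| := abs_add_le _ _
          _ = (1 - ε) * |b i j| + ε * |b1 i j| := by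
              rw [abs_mul, abs_mul, abs_of_pos hε0, abs_of_nonneg (by linarith : 0 ≤ 1 - ε)]
          _ ≤ (1 - ε) * m + ε * m :=
              add_le_add (mul_le_mul_of_nonneg_left (h.2.2 i j hij) (by linarith))
                (mul_le_mul_of_nonneg_left (hadm1.2.2 i j hij) hε0.le)
          _ = m := by ring
    · rw [hge]; exact h2
    · rw [hge, hge, hge]
      have hgf : Matrix.toBilin' b g f = 0 := by rw [toBilin'_comm h.1]; exact hfg
      have e4 : g1 ε g f = ε * Matrix.toBilin' b1 g f := by
        simp only [hg1]; rw [hgf]; ring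
      have e5 : g1 ε f f = ε * Matrix.toBilin' b1 f f := by
        simp only [hg1]; rw [hf]; ring
      rw [e4, e5]
      nlinarith

/-- Codimension two. -/
theorem hasDict_codim_two {N : ℕ} (hN : 3 ≤ N) (μ : ℝ) (b : Matrix (Fin N) (Fin N) ℝ)
    (h : Ind N (N - 2) μ b) : HasDict N (N - 2) μ := by
  classical
  have hμ0 : 0 ≤ μ := (abs_nonneg _).trans
    (h.off (⟨0, by omega⟩ : Fin N) ⟨1, by omega⟩ (by simp))
  obtain ⟨m, hm0, hmμ, ⟨b, hadm, hflat⟩, hmin⟩ := exists_min hμ0
    ⟨b, ⟨h.symm, h.diag, h.off⟩, flat_of_ind h (by omega)⟩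
  refine HasDict.mono ?_ hmμ
  obtain ⟨u, v, hu1, hv1, huv1, hu, hv, huv⟩ := hflat
  -- `m` is positive
  have hmpos : 0 < m := by
    refine lt_of_le_of_ne hm0 fun h0 => ?_
    have hb1 : b = 1 := by
      ext i j
      by_cases hij : i = j
      · subst hij; rw [hadm.2.1, Matrix.one_apply_eq]
      · have := hadm.2.2 i j hij
        rw [← h0] at this
        rw [Matrix.one_apply_ne hij]
        exact abs_nonpos_iff.1 this
    have h1 : Matrix.toBilin' b u u = 1 := by
      rw [hb1, Matrix.toBilin'_apply, ← hu1]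
      refine sum_congr rfl fun i _ => ?_
      rw [sum_eq_single i]
      · rw [Matrix.one_apply_eq]; ring
      · intro j _ hj
        rw [Matrix.one_apply_ne (Ne.symm hj)]; ring
      · simp
    linarith
  have hno : ∀ b', Adm N m b' → ∀ x y, ¬ NegDef b' x y := by
    intro b' hb' x y hneg
    obtain ⟨m', hm', hm'0, b'', hb1, hb2⟩ := improve hmpos hb' x y hneg
    exact hmin m' hm'0 hm' ⟨b'', hb1, hb2⟩
  have hli : ∀ s t : ℝ, s • u + t • v = 0 → s = 0 ∧ t = 0 := by
    intro s t hst
    have h1 : ∀ i, s * u i + t * v i = 0 := fun i => by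
      have := congrFun hst i
      simpa using this
    have h2 : ∑ i, (s * u i + t * v i) * u i = s := by
      have : ∑ i, (s * u i + t * v i) * u i = s * ∑ i, u i ^ 2 + t * ∑ i, u i * v i := by
        rw [mul_sum, mul_sum, ← sum_add_distrib]
        exact sum_congr rfl fun i _ => by ring
      rw [this, hu1, huv1]; ring
    have h3 : ∑ i, (s * u i + t * v i) * v i = t := by
      have : ∑ i, (s * u i + t * v i) * v i = s * ∑ i, u i * v i + t * ∑ i, v i ^ 2 := by
        rw [mul_sum, mul_sum, ← sum_add_distrib]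
        exact sum_congr rfl fun i _ => by ring
      rw [this, hv1, huv1]; ring
    simp only [h1, zero_mul, sum_const_zero] at h2 h3
    exact ⟨h2.symm, h3.symm⟩
  by_cases hps : ∀ x, 0 ≤ Matrix.toBilin' b x x
  · -- positive semidefinite
    have hu0 := le_antisymm hu (hps u)
    have hv0 := le_antisymm hv (hps v)
    refine hasDict_of_psd b hadm.1 hadm.2.1 hadm.2.2 hps (Submodule.span ℝ {u, v}) ?_ ?_
    · have : Module.finrank ℝ (Submodule.span ℝ {u, v}) = 2 := by
        have h1 : LinearIndependent ℝ ![u, v] := LinearIndependent.pair_iff.2 hli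
        have h2 := finrank_span_eq_card h1
        rw [Matrix.range_cons, Matrix.range_cons, Matrix.range_empty, Set.union_empty,
          Set.singleton_union] at h2
        simpa using h2
      omega
    · intro x hx i
      have hrow : ∀ z : Fin N → ℝ, Matrix.toBilin' b z z = 0 → ∑ j, b i j * z j = 0 := by
        intro z hz
        have := ker_of_psd hadm.1 hps hz (Pi.single i 1)
        rw [bil_eq_sum] at this
        simpa [Pi.single_apply] using this
      obtain ⟨s, t, rfl⟩ := Submodule.mem_span_pair.1 hx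
      have e : ∑ j, b i j * (s • u + t • v) j = s * ∑ j, b i j * u j + t * ∑ j, b i j * v j := by
        rw [mul_sum, mul_sum, ← sum_add_distrib]
        refine sum_congr rfl fun j _ => ?_
        rw [Pi.add_apply, Pi.smul_apply, Pi.smul_apply, smul_eq_mul, smul_eq_mul]; ring
      rw [e, hrow u hu0, hrow v hv0]; ring
  · push Not at hps
    obtain ⟨w, hw⟩ := hps
    obtain ⟨f, g, hf0, hff, hfg, hgg⟩ := exists_null hadm.1 u v w hli hu hv huv hw
      (hno b hadm u v)
    exact hasDict_of_crit (by omega) hm0 b hadm.1 hadm.2.1 hadm.2.2 f hf0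
      (ker_of_null hadm.1 f g hff hfg hgg (hno b hadm))
      (fun i j hij => crit_of_null hm0 hadm f g hff hfg hgg hno i j hij) ⟨w, hw⟩

end Pool.Agent.EE
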