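import Pool.Agent.EE.Crit

/-! Codimension two: the minimiser. -/

namespace Pool.Agent.EE

open Finset Pool.Agent.MP_943f09_an

/-- Symmetric matrices with unit diagonal and entries at most `m` off the diagonal. -/
def Adm (N : ℕ) (m : ℝ) (b : Matrix (Fin N) (Fin N) ℝ) : Prop :=
  (∀ i j, b i j = b j i) ∧ (∀ i, b i i = 1) ∧ ∀ i j, i ≠ j → |b i j| ≤ m

/-- The form is negative definite on the span of `x`, `y`. -/
def NegDef {N : ℕ} (b : Matrix (Fin N) (Fin N) ℝ) (x y : Fin N → ℝ) : Prop :=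
  Matrix.toBilin' b x x < 0 ∧
    Matrix.toBilin' b x y ^ 2 < Matrix.toBilin' b x x * Matrix.toBilin' b y y

/-- The form is nonpositive on the span of two orthonormal vectors. -/
def Flat (N : ℕ) (b : Matrix (Fin N) (Fin N) ℝ) : Prop :=
  ∃ u v : Fin N → ℝ, ∑ i, u i ^ 2 = 1 ∧ ∑ i, v i ^ 2 = 1 ∧ ∑ i, u i * v i = 0 ∧
    Matrix.toBilin' b u u ≤ 0 ∧ Matrix.toBilin' b v v ≤ 0 ∧
      Matrix.toBilin' b u v ^ 2 ≤ Matrix.toBilin' b u u * Matrix.toBilin' b v v

theorem quad_nonpos {α β γ : ℝ} (hα : α ≤ 0) (hγ : γ ≤ 0) (h : β ^ 2 ≤ α * γ) (s t : ℝ) :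
    s ^ 2 * α + 2 * (s * t) * β + t ^ 2 * γ ≤ 0 := by
  rcases eq_or_lt_of_le hα with h0 | h0
  · have : β = 0 := by
      have : β ^ 2 ≤ 0 := by rw [h0, zero_mul] at h; exact h
      exact pow_eq_zero_iff two_ne_zero |>.1 (le_antisymm this (sq_nonneg _))
    rw [h0, this]
    nlinarith [sq_nonneg t]
  · have h1 : 0 ≤ α * (s ^ 2 * α + 2 * (s * t) * β + t ^ 2 * γ) := by
      nlinarith [sq_nonneg (s * α + t * β), sq_nonneg t, mul_nonneg (sq_nonneg t) (sub_nonneg.2 h)]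
    by_contra hc
    rw [not_le] at hc
    nlinarith

/-- Any two independent vectors of a plane where the form is nonpositive give orthonormal ones. -/
theorem flat_of {N : ℕ} (b : Matrix (Fin N) (Fin N) ℝ) (hs : ∀ i j, b i j = b j i)
    (x y : Fin N → ℝ) (hli : ∀ s t : ℝ, s • x + t • y = 0 → s = 0 ∧ t = 0)
    (h : ∀ s t : ℝ, Matrix.toBilin' b (s • x + t • y) (s • x + t • y) ≤ 0) : Flat N b := by
  have hsymm := toBilin'_comm hs
  have hsq : ∀ z : Fin N → ℝ, z ≠ 0 → 0 < ∑ i, z i ^ 2 := by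
    intro z hz
    obtain ⟨i, hi⟩ : ∃ i, z i ≠ 0 := by
      by_contra hcon
      push Not at hcon
      exact hz (funext hcon)
    exact sum_pos' (fun i _ => sq_nonneg _) ⟨i, mem_univ i, by positivity⟩
  have hx : x ≠ 0 := fun h0 => by
    have := (hli 1 0 (by rw [h0]; simp)).1
    norm_num at this
  have hX := hsq x hx
  set X := ∑ i, x i ^ 2
  set P := ∑ i, x i * y i with hP
  set z : Fin N → ℝ := y - (P / X) • x with hz
  have hz0 : z ≠ 0 := fun h0 => by
    have := (hli (-(P / X)) 1 (by rw [← h0, hz]; simp [sub_eq_add_neg, add_comm])).2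
    norm_num at this
  have hZ := hsq z hz0
  set Z := ∑ i, z i ^ 2
  have hxz : ∑ i, x i * z i = 0 := by
    have : ∑ i, x i * z i = P - (P / X) * X := by
      rw [hP, mul_sum, ← sum_sub_distrib]
      refine sum_congr rfl fun i _ => ?_
      rw [hz, Pi.sub_apply, Pi.smul_apply, smul_eq_mul]; ring
    rw [this, div_mul_cancel₀ _ hX.ne', sub_self]
  set p := Real.sqrt X
  set q := Real.sqrt Z
  have hp0 : 0 < p := Real.sqrt_pos.2 hX
  have hq0 : 0 < q := Real.sqrt_pos.2 hZ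
  have hp2 : p ^ 2 = X := Real.sq_sqrt hX.le
  have hq2 : q ^ 2 = Z := Real.sq_sqrt hZ.le
  have hscal : ∀ (c d : ℝ) (v w : Fin N → ℝ), ∑ i, (c • v) i * (d • w) i =
      c * d * ∑ i, v i * w i := by
    intro c d v w
    rw [mul_sum]
    refine sum_congr rfl fun i _ => ?_
    rw [Pi.smul_apply, Pi.smul_apply, smul_eq_mul, smul_eq_mul]; ring
  have hsqe : ∀ v : Fin N → ℝ, ∑ i, v i ^ 2 = ∑ i, v i * v i := fun v =>
    sum_congr rfl fun i _ => sq _
  -- the form on the plane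
  have hform : ∀ s t : ℝ, s ^ 2 * Matrix.toBilin' b ((1 / p) • x) ((1 / p) • x) +
      2 * (s * t) * Matrix.toBilin' b ((1 / p) • x) ((1 / q) • z) +
      t ^ 2 * Matrix.toBilin' b ((1 / q) • z) ((1 / q) • z) ≤ 0 := by
    intro s t
    have h1 := h (s * (1 / p) - t * (1 / q) * (P / X)) (t * (1 / q))
    have e : (s * (1 / p) - t * (1 / q) * (P / X)) • x + (t * (1 / q)) • y =
        s • ((1 / p) • x) + t • ((1 / q) • z) := by
      rw [hz]
      funext i
      simp only [Pi.add_apply, Pi.smul_apply, Pi.sub_apply, smul_eq_mul]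
      ring
    rw [e] at h1
    generalize (1 / p) • x = v at h1 ⊢
    generalize (1 / q) • z = w at h1 ⊢
    simp only [map_add, map_smul, LinearMap.add_apply, LinearMap.smul_apply, smul_eq_mul] at h1
    rw [hsymm w v] at h1
    linarith
  refine ⟨(1 / p) • x, (1 / q) • z, ?_, ?_, ?_, ?_, ?_, ?_⟩
  · rw [hsqe, hscal, ← hsqe]
    show 1 / p * (1 / p) * X = 1
    rw [← hp2]; field_simp
  · rw [hsqe, hscal, ← hsqe]
    show 1 / q * (1 / q) * Z = 1
    rw [← hq2]; field_simp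
  · rw [hscal, hxz, mul_zero]
  · simpa using hform 1 0
  · simpa using hform 0 1
  · generalize Matrix.toBilin' b ((1 / p) • x) ((1 / p) • x) = α at hform ⊢
    generalize Matrix.toBilin' b ((1 / p) • x) ((1 / q) • z) = β at hform ⊢
    generalize Matrix.toBilin' b ((1 / q) • z) ((1 / q) • z) = γ at hform ⊢
    have hα : α ≤ 0 := by simpa using hform 1 0
    have hγ : γ ≤ 0 := by simpa using hform 0 1
    rcases eq_or_lt_of_le hγ with h0 | h0
    · have hβ : β = 0 := by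
        by_contra hβ
        have h1 := hform 1 ((1 - α) / (2 * β))
        have h2 : 2 * (1 * ((1 - α) / (2 * β))) * β = 1 - α := by field_simp
        rw [h2, h0] at h1
        linarith
      rw [hβ, h0]; simp
    · have h1 := hform (-γ) β
      nlinarith

theorem Adm.scale {N : ℕ} {m ε : ℝ} {b : Matrix (Fin N) (Fin N) ℝ} (h : Adm N m b)
    (h1 : ε ≤ 1) : Adm N ((1 - ε) * m) ((1 - ε) • b + ε • 1) := by
  refine ⟨fun i j => ?_, fun i => ?_, fun i j hij => ?_⟩
  · simp only [Matrix.add_apply, Matrix.smul_apply, h.1 i j, Matrix.one_apply, eq_comm]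
  · simp [h.2.1 i]
  · simp only [Matrix.add_apply, Matrix.smul_apply, Matrix.one_apply, if_neg hij, smul_eq_mul,
      mul_zero, add_zero, abs_mul]
    rw [abs_of_nonneg (by linarith : 0 ≤ 1 - ε)]
    exact mul_le_mul_of_nonneg_left (h.2.2 i j hij) (by linarith)

/-- A negative definite plane leaves room. -/
theorem improve {N : ℕ} {m : ℝ} (hm : 0 < m) {b : Matrix (Fin N) (Fin N) ℝ} (h : Adm N m b)
    (x y : Fin N → ℝ) (hneg : NegDef b x y) :
    ∃ m' < m, 0 ≤ m' ∧ ∃ b', Adm N m' b' ∧ Flat N b' := by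
  obtain ⟨hn1, hn2⟩ := hneg
  have hsymm := toBilin'_comm h.1
  -- the form of the scaled matrix
  set g : ℝ → (Fin N → ℝ) → (Fin N → ℝ) → ℝ := fun ε v w =>
    (1 - ε) * Matrix.toBilin' b v w + ε * Matrix.toBilin' (1 : Matrix (Fin N) (Fin N) ℝ) v w
    with hg
  have hge : ∀ ε v w, Matrix.toBilin' ((1 - ε) • b + ε • (1 : Matrix (Fin N) (Fin N) ℝ)) v w =
      g ε v w := by
    intro ε v w
    rw [map_add, map_smul, map_smul]
    rfl
  have hc : ∀ v w, Continuous fun ε => g ε v w := by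
    intro v w; simp only [hg]; fun_prop
  have hg0 : ∀ v w, g 0 v w = Matrix.toBilin' b v w := by
    intro v w; simp [hg]
  have e1 : ∀ᶠ ε in nhds (0 : ℝ), g ε x x < 0 := by
    refine (hc x x).continuousAt.eventually_lt continuousAt_const ?_
    rw [hg0]; exact hn1
  have e2 : ∀ᶠ ε in nhds (0 : ℝ), g ε x y ^ 2 < g ε x x * g ε y y := by
    refine ((hc x y).pow 2).continuousAt.eventually_lt ((hc x x).mul (hc y y)).continuousAt ?_
    show g 0 x y ^ 2 < g 0 x x * g 0 y y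
    rw [hg0, hg0, hg0]; exact hn2
  have e3 : ∀ᶠ ε in nhds (0 : ℝ), ε < 1 := eventually_lt_nhds zero_lt_one
  obtain ⟨δ, hδ, hball⟩ := Metric.eventually_nhds_iff.1 (e1.and (e2.and e3))
  have hε := hball (y := δ / 2) (by rw [Real.dist_eq, sub_zero, abs_of_pos (by linarith)]; linarith)
  set ε := δ / 2 with hεd
  have hε0 : 0 < ε := by rw [hεd]; linarith
  obtain ⟨h1, h2, h3⟩ := hε
  refine ⟨(1 - ε) * m, by nlinarith, by nlinarith, (1 - ε) • b + ε • 1,
    h.scale h3.le, ?_⟩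
  have hsy : ∀ i j, ((1 - ε) • b + ε • (1 : Matrix (Fin N) (Fin N) ℝ)) i j =
      ((1 - ε) • b + ε • (1 : Matrix (Fin N) (Fin N) ℝ)) j i := (h.scale h3.le).1
  have hcomm := toBilin'_comm hsy
  have hcore : ∀ s t : ℝ, Matrix.toBilin' ((1 - ε) • b + ε • (1 : Matrix (Fin N) (Fin N) ℝ))
      (s • x + t • y) (s • x + t • y) = s ^ 2 * g ε x x + 2 * (s * t) * g ε x y +
        t ^ 2 * g ε y y := by
    intro s t
    rw [← hge, ← hge, ← hge]
    generalize (1 - ε) • b + ε • (1 : Matrix (Fin N) (Fin N) ℝ) = M at hcomm ⊢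
    simp only [map_add, map_smul, LinearMap.add_apply, LinearMap.smul_apply, smul_eq_mul]
    rw [hcomm y x]
    ring
  have hyy : g ε y y < 0 := by
    by_contra hcon
    rw [not_lt] at hcon
    nlinarith [sq_nonneg (g ε x y), mul_nonneg hcon (neg_nonneg.2 h1.le)]
  refine flat_of _ hsy x y (fun s t hst => ?_) (fun s t => ?_)
  · have h4 := hcore s t
    rw [hst] at h4
    simp only [map_zero] at h4
    generalize g ε x x = α at *
    generalize g ε x y = β at *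
    generalize g ε y y = γ at *
    have h5 : 0 = (s * α + t * β) ^ 2 + t ^ 2 * (α * γ - β ^ 2) := by
      have : (s * α + t * β) ^ 2 + t ^ 2 * (α * γ - β ^ 2) =
        α * (s ^ 2 * α + 2 * (s * t) * β + t ^ 2 * γ) := by ring
      rw [this, ← h4, mul_zero]
    have h6 : t ^ 2 * (α * γ - β ^ 2) ≤ 0 := by nlinarith [sq_nonneg (s * α + t * β)]
    have ht : t = 0 := by
      by_contra ht
      have : 0 < t ^ 2 := by positivity
      nlinarith
    subst ht
    have h7 : s ^ 2 * α = 0 := by linarith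
    rcases mul_eq_zero.1 h7 with h8 | h8
    · exact ⟨pow_eq_zero_iff two_ne_zero |>.1 h8, rfl⟩
    · exact absurd h8 h1.ne
  · rw [hcore]
    exact quad_nonpos h1.le hyy.le h2.le s t

/-- The minimum is attained. -/
theorem exists_min {N : ℕ} {m₀ : ℝ} (h0 : 0 ≤ m₀)
    (h : ∃ b, Adm N m₀ b ∧ Flat N b) :
    ∃ m, 0 ≤ m ∧ m ≤ m₀ ∧ (∃ b, Adm N m b ∧ Flat N b) ∧
      ∀ m', 0 ≤ m' → m' < m → ¬ ∃ b, Adm N m' b ∧ Flat N b := by
  -- the compact set of data
  set Y : Set (ℝ × (Fin N → Fin N → ℝ) × (Fin N → ℝ) × (Fin N → ℝ)) :=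
    {q | 0 ≤ q.1 ∧ q.1 ≤ m₀ ∧ (∀ i j, q.2.1 i j = q.2.1 j i) ∧ (∀ i, q.2.1 i i = 1) ∧
      (∀ i j, i ≠ j → |q.2.1 i j| ≤ q.1) ∧ ∑ i, q.2.2.1 i ^ 2 = 1 ∧ ∑ i, q.2.2.2 i ^ 2 = 1 ∧
      ∑ i, q.2.2.1 i * q.2.2.2 i = 0 ∧
      ∑ i, ∑ j, q.2.2.1 i * q.2.1 i j * q.2.2.1 j ≤ 0 ∧
      ∑ i, ∑ j, q.2.2.2 i * q.2.1 i j * q.2.2.2 j ≤ 0 ∧
      (∑ i, ∑ j, q.2.2.1 i * q.2.1 i j * q.2.2.2 j) ^ 2 ≤
        (∑ i, ∑ j, q.2.2.1 i * q.2.1 i j * q.2.2.1 j) *
          ∑ i, ∑ j, q.2.2.2 i * q.2.1 i j * q.2.2.2 j} with hY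
  have hmem : ∀ m (b : Matrix (Fin N) (Fin N) ℝ), 0 ≤ m → m ≤ m₀ → Adm N m b → Flat N b →
      ∃ u v, (m, (b : Fin N → Fin N → ℝ), u, v) ∈ Y := by
    rintro m b hm hm' ⟨h1, h2, h3⟩ ⟨u, v, h4, h5, h6, h7, h8, h9⟩
    rw [Matrix.toBilin'_apply] at h7 h8
    rw [Matrix.toBilin'_apply, Matrix.toBilin'_apply, Matrix.toBilin'_apply] at h9
    exact ⟨u, v, hm, hm', h1, h2, h3, h4, h5, h6, h7, h8, h9⟩
  have hYc : IsCompact Y := by
    have hcl : IsClosed Y := by
      simp only [hY, Set.ofPred_and, Set.ofPred_forall]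
      refine IsClosed.inter (isClosed_le (by fun_prop) (by fun_prop)) ?_
      refine IsClosed.inter (isClosed_le (by fun_prop) (by fun_prop)) ?_
      refine IsClosed.inter (isClosed_iInter fun i => isClosed_iInter fun j =>
        isClosed_eq (by fun_prop) (by fun_prop)) ?_
      refine IsClosed.inter (isClosed_iInter fun i => isClosed_eq (by fun_prop) (by fun_prop)) ?_
      refine IsClosed.inter (isClosed_iInter fun i => isClosed_iInter fun j =>
        isClosed_iInter fun _ => isClosed_le (by fun_prop) (by fun_prop)) ?_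
      refine IsClosed.inter (isClosed_eq (by fun_prop) (by fun_prop)) ?_
      refine IsClosed.inter (isClosed_eq (by fun_prop) (by fun_prop)) ?_
      refine IsClosed.inter (isClosed_eq (by fun_prop) (by fun_prop)) ?_
      refine IsClosed.inter (isClosed_le (by fun_prop) (by fun_prop)) ?_
      refine IsClosed.inter (isClosed_le (by fun_prop) (by fun_prop)) ?_
      exact isClosed_le (by fun_prop) (by fun_prop)
    set C : ℝ := max m₀ 1 with hC
    have hunit : ∀ u : Fin N → ℝ, ∑ i, u i ^ 2 = 1 → ∀ i, u i ∈ Set.Icc (-1 : ℝ) 1 := by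
      intro u hu i
      have h1 : u i ^ 2 ≤ 1 := by
        rw [← hu]
        exact single_le_sum (f := fun i => u i ^ 2) (fun i _ => sq_nonneg _) (mem_univ i)
      exact abs_le.1 (by rw [← sq_abs] at h1; nlinarith [abs_nonneg (u i)])
    refine ((isCompact_Icc (a := (0 : ℝ)) (b := m₀)).prod
      ((isCompact_univ_pi (fun _ : Fin N => isCompact_univ_pi
        (fun _ : Fin N => isCompact_Icc (a := -C) (b := C)))).prod
      ((isCompact_univ_pi (fun _ : Fin N => isCompact_Icc (a := (-1 : ℝ)) (b := 1))).prod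
        (isCompact_univ_pi (fun _ : Fin N => isCompact_Icc (a := (-1 : ℝ)) (b := 1)))))).of_isClosed_subset
      hcl ?_
    rintro ⟨m, b, u, v⟩ ⟨h1, h2, h3, h4, h5, h6, h7, -⟩
    refine ⟨⟨h1, h2⟩, fun i _ j _ => ?_, fun i _ => hunit u h6 i, fun i _ => hunit v h7 i⟩
    simp only at h4 h5
    refine abs_le.1 ?_
    by_cases hij : i = j
    · subst hij
      show |b i i| ≤ C
      rw [h4, abs_one]; exact le_max_right _ _
    · exact (h5 i j hij).trans (le_trans h2 (le_max_left _ _))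
  have hYn : Y.Nonempty := by
    obtain ⟨b, hb1, hb2⟩ := h
    obtain ⟨u, v, huv⟩ := hmem m₀ b h0 le_rfl hb1 hb2
    exact ⟨_, huv⟩
  obtain ⟨⟨m, b, u, v⟩, hq, hmin⟩ := hYc.exists_isMinOn hYn (f := fun q => q.1)
    (by fun_prop)
  obtain ⟨h1, h2, h3, h4, h5, h6, h7, h8, h9, h10, h11⟩ := hq
  refine ⟨m, h1, h2, ⟨Matrix.of b, ⟨h3, h4, h5⟩, u, v, h6, h7, h8, ?_, ?_, ?_⟩, ?_⟩
  · rw [Matrix.toBilin'_apply]; exact h9
  · rw [Matrix.toBilin'_apply]; exact h10
  · rw [Matrix.toBilin'_apply, Matrix.toBilin'_apply, Matrix.toBilin'_apply]; exact h11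
  · rintro m' hm' hlt ⟨b', hb1, hb2⟩
    obtain ⟨u', v', huv⟩ := hmem m' b' hm' (hlt.le.trans h2) hb1 hb2
    exact absurd (isMinOn_iff.1 hmin _ huv) (not_le.2 hlt)

end Pool.Agent.EE
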