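import Pool.Agent.EE.Path

/-! Codimension two, the critical case: a null vector `f` at which all constraints are active. -/

namespace Pool.Agent.EE

open Finset Pool.Agent.MP_943f09_an

theorem bil_eq_sum {N : ℕ} (b : Matrix (Fin N) (Fin N) ℝ) (x y : Fin N → ℝ) :
    Matrix.toBilin' b x y = ∑ i, x i * ∑ j, b i j * y j := by
  rw [Matrix.toBilin'_apply]
  refine sum_congr rfl fun i _ => ?_
  rw [mul_sum]
  exact sum_congr rfl fun j _ => by ring

theorem hasDict_of_crit {N : ℕ} (hN : 2 ≤ N) {μ : ℝ} (hμ0 : 0 ≤ μ)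
    (b : Matrix (Fin N) (Fin N) ℝ) (hsymm : ∀ i j, b i j = b j i) (hdiag : ∀ i, b i i = 1)
    (hoff : ∀ i j, i ≠ j → |b i j| ≤ μ) (f : Fin N → ℝ) (hf : f ≠ 0)
    (hker : ∀ y, Matrix.toBilin' b y f = 0)
    (hcrit : ∀ i j, i ≠ j → b i j * (f i * f j) = -(μ * |f i * f j|))
    (hneg : ∃ x, Matrix.toBilin' b x x < 0) : HasDict N (N - 2) μ := by
  classical
  have hrow : ∀ i, ∑ j, b i j * f j = 0 := by
    intro i
    have := hker (Pi.single i 1)
    rw [bil_eq_sum] at this
    simpa [Pi.single_apply] using this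
  set σ : Fin N → ℝ := fun i => f i / |f i| with hσ
  have hσf : ∀ i, σ i * f i = |f i| := by
    intro i
    by_cases h : f i = 0
    · simp [hσ, h]
    · have h1 : |f i| ≠ 0 := abs_ne_zero.2 h
      simp only [hσ]
      rw [div_mul_eq_mul_div, div_eq_iff h1, ← abs_mul_abs_self]
  have hσ2 : ∀ i, f i ≠ 0 → σ i ^ 2 = 1 := by
    intro i h
    have h1 : |f i| ≠ 0 := abs_ne_zero.2 h
    simp only [hσ]
    rw [div_pow, sq_abs, div_self (pow_ne_zero 2 h)]
  have hσ0 : ∀ i, f i = 0 → σ i = 0 := by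
    intro i h; simp [hσ, h]
  have hσ3 : ∀ i, σ i ^ 2 * σ i = σ i := by
    intro i
    by_cases h : f i = 0
    · rw [hσ0 i h]; simp
    · rw [hσ2 i h, one_mul]
  have hσle : ∀ i, σ i ^ 2 ≤ 1 := by
    intro i
    by_cases h : f i = 0
    · rw [hσ0 i h]; norm_num
    · rw [hσ2 i h]
  have hσabs : ∀ i, |σ i| ≤ 1 := fun i => by
    have := hσle i
    rw [← sq_abs] at this
    nlinarith [abs_nonneg (σ i)]
  set b0 : Matrix (Fin N) (Fin N) ℝ := Matrix.of fun i j => if i = j then 1 else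
    -(μ * (σ i * σ j)) with hb0
  have hb0e : ∀ i j, b0 i j = if i = j then 1 else -(μ * (σ i * σ j)) := fun i j => rfl
  have hb0f : ∀ i, f i ≠ 0 → ∀ j, b0 i j * f j = b i j * f j := by
    intro i hi j
    rw [hb0e]
    by_cases hij : i = j
    · subst hij; rw [if_pos rfl, hdiag]
    · rw [if_neg hij]
      by_cases hj : f j = 0
      · rw [hj]; ring
      · have h1 := hcrit i j hij
        rw [abs_mul, ← hσf i, ← hσf j] at h1
        have h2 : f i * f j ≠ 0 := mul_ne_zero hi hj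
        have h3 : b i j * (f i * f j) = -(μ * (σ i * σ j)) * (f i * f j) := by rw [h1]; ring
        have h4 := mul_right_cancel₀ h2 h3
        rw [h4]
  have hrow0 : ∀ i, ∑ j, b0 i j * f j = 0 := by
    intro i
    by_cases hi : f i = 0
    · refine sum_eq_zero fun j _ => ?_
      rw [hb0e]
      by_cases hij : i = j
      · subst hij; rw [hi, mul_zero]
      · rw [if_neg hij, hσ0 i hi]; ring
    · rw [← hrow i]
      exact sum_congr rfl fun j _ => hb0f i hi j
  have hker0 : ∀ y, Matrix.toBilin' b0 y f = 0 := by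
    intro y
    rw [bil_eq_sum]
    simp only [hrow0, mul_zero, sum_const_zero]
  -- the quadratic form of `b0`
  have hquad : ∀ x y : Fin N → ℝ, Matrix.toBilin' b0 x y =
      ∑ i, (1 + μ * σ i ^ 2) * (x i * y i) - μ * ((∑ i, σ i * x i) * ∑ i, σ i * y i) := by
    intro x y
    rw [Matrix.toBilin'_apply, sum_mul_sum, mul_sum, ← sum_sub_distrib]
    refine sum_congr rfl fun i _ => ?_
    have e : (1 + μ * σ i ^ 2) * (x i * y i) =
        ∑ j, if j = i then (1 + μ * σ i ^ 2) * (x i * y i) else 0 := by simp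
    rw [e, mul_sum, ← sum_sub_distrib]
    refine sum_congr rfl fun j _ => ?_
    rw [hb0e]
    by_cases hij : i = j
    · subst hij; rw [if_pos rfl, if_pos rfl]; ring
    · rw [if_neg hij, if_neg (Ne.symm hij)]; ring
  set S : ℝ := ∑ i, |f i| with hS
  have hS0 : 0 < S := by
    obtain ⟨i, hi⟩ : ∃ i, f i ≠ 0 := by
      by_contra hcon
      push Not at hcon
      exact hf (funext hcon)
    exact sum_pos' (fun i _ => abs_nonneg _) ⟨i, mem_univ i, abs_pos.2 hi⟩
  have hcard : 1 + μ = μ * ∑ i, σ i ^ 2 := by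
    have h1 := hquad σ f
    have h2 : ∑ i, (1 + μ * σ i ^ 2) * (σ i * f i) = (1 + μ) * S := by
      rw [hS, mul_sum]
      refine sum_congr rfl fun i _ => ?_
      rw [hσf]
      by_cases h : f i = 0
      · rw [h]; simp
      · rw [hσ2 i h, mul_one]
    have h3 : ∑ i, σ i * f i = S := sum_congr rfl fun i _ => hσf i
    have h4 : ∑ i, σ i * σ i = ∑ i, σ i ^ 2 := sum_congr rfl fun i _ => (sq _).symm
    rw [hker0, h2, h3, h4] at h1
    have h5 : (1 + μ - μ * ∑ i, σ i ^ 2) * S = 0 := by linarith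
    rcases mul_eq_zero.1 h5 with h6 | h6
    · linarith
    · exact absurd h6 hS0.ne'
  have hpsd0 : ∀ x, 0 ≤ Matrix.toBilin' b0 x x := by
    intro x
    rw [hquad]
    have hcs : (∑ i, σ i * x i) ^ 2 ≤ (∑ i, σ i ^ 2) * ∑ i, σ i ^ 2 * x i ^ 2 := by
      have h1 := sum_mul_sq_le_sq_mul_sq (univ : Finset (Fin N)) σ (fun i => σ i ^ 2 * x i)
      have e1 : ∑ i, σ i * (σ i ^ 2 * x i) = ∑ i, σ i * x i :=
        sum_congr rfl fun i _ => by
          have := hσ3 i
          calc σ i * (σ i ^ 2 * x i) = (σ i ^ 2 * σ i) * x i := by ring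
            _ = σ i * x i := by rw [this]
      have e2 : ∑ i, (σ i ^ 2 * x i) ^ 2 = ∑ i, σ i ^ 2 * x i ^ 2 :=
        sum_congr rfl fun i _ => by
          have := hσ3 i
          calc (σ i ^ 2 * x i) ^ 2 = (σ i ^ 2 * σ i) * σ i * x i ^ 2 := by ring
            _ = σ i * σ i * x i ^ 2 := by rw [this]
            _ = σ i ^ 2 * x i ^ 2 := by ring
      rwa [e1, e2] at h1
    have h2 : μ * ((∑ i, σ i * x i) * ∑ i, σ i * x i) ≤ (1 + μ) * ∑ i, σ i ^ 2 * x i ^ 2 := by
      rw [hcard]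
      have := mul_le_mul_of_nonneg_left hcs hμ0
      calc μ * ((∑ i, σ i * x i) * ∑ i, σ i * x i) = μ * (∑ i, σ i * x i) ^ 2 := by ring
        _ ≤ μ * ((∑ i, σ i ^ 2) * ∑ i, σ i ^ 2 * x i ^ 2) := this
        _ = μ * (∑ i, σ i ^ 2) * ∑ i, σ i ^ 2 * x i ^ 2 := by ring
    have h3 : (1 + μ) * ∑ i, σ i ^ 2 * x i ^ 2 ≤ ∑ i, (1 + μ * σ i ^ 2) * (x i * x i) := by
      rw [mul_sum]
      refine sum_le_sum fun i _ => ?_
      have h4 : 0 ≤ x i ^ 2 := sq_nonneg _
      have h5 := hσle i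
      nlinarith [mul_nonneg h4 (sub_nonneg.2 h5)]
    linarith
  have hsymm0 : ∀ i j, b0 i j = b0 j i := by
    intro i j
    rw [hb0e, hb0e]
    by_cases hij : i = j
    · subst hij; rfl
    · rw [if_neg hij, if_neg (Ne.symm hij)]; ring
  obtain ⟨s, hs0, hs1, hps, K, hK, hKk⟩ := exists_path b0 b hsymm0 hsymm f hf hker0 hker hpsd0 hneg
  refine hasDict_of_psd _ (fun i j => ?_) (fun i => ?_) (fun i j hij => ?_) hps K (by omega) ?_
  · simp only [Matrix.add_apply, Matrix.smul_apply, hsymm0 i j, hsymm i j]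
  · simp only [Matrix.add_apply, Matrix.smul_apply, hdiag, hb0e, if_true, smul_eq_mul]; ring
  · simp only [Matrix.add_apply, Matrix.smul_apply, smul_eq_mul]
    have h1 : |b0 i j| ≤ μ := by
      rw [hb0e, if_neg hij, abs_neg, abs_mul, abs_mul, abs_of_nonneg hμ0]
      have := mul_le_mul (hσabs i) (hσabs j) (abs_nonneg _) zero_le_one
      calc μ * (|σ i| * |σ j|) ≤ μ * (1 * 1) := mul_le_mul_of_nonneg_left this hμ0
        _ = μ := by ring
    calc |(1 - s) * b0 i j + s * b i j| ≤ |(1 - s) * b0 i j| + |s * b i j| := abs_add_le _ _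
      _ = (1 - s) * |b0 i j| + s * |b i j| := by
          rw [abs_mul, abs_mul, abs_of_nonneg hs0, abs_of_nonneg (by linarith : 0 ≤ 1 - s)]
      _ ≤ (1 - s) * μ + s * μ :=
          add_le_add (mul_le_mul_of_nonneg_left h1 (by linarith))
            (mul_le_mul_of_nonneg_left (hoff i j hij) hs0)
      _ = μ := by ring
  · intro x hx i
    have := hKk x hx (Pi.single i 1)
    rw [bil_eq_sum] at this
    simpa [Pi.single_apply] using this

end Pool.Agent.EE
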