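import Pool.Agent.MP_943f09_an.Embed
import Pool.Agent.MP_943f09_an.Lower

/-! Exact equality of the width of the octahedron and the coherence: the symmetric form. -/

namespace Pool.Agent.EE

open Finset Pool.Agent.MP_943f09_an

/-- `b` is symmetric with unit diagonal, entries off the diagonal at most `μ`, and its quadratic
form is nonpositive on a subspace of codimension at most `n`. -/
structure Ind (N n : ℕ) (μ : ℝ) (b : Matrix (Fin N) (Fin N) ℝ) : Prop where
  symm : ∀ i j, b i j = b j i
  diag : ∀ i, b i i = 1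
  off : ∀ i j, i ≠ j → |b i j| ≤ μ
  neg : ∃ K : Submodule ℝ (Fin N → ℝ), N ≤ n + Module.finrank ℝ K ∧
    ∀ x ∈ K, Matrix.toBilin' b x x ≤ 0

theorem toBilin'_comm {N : ℕ} {b : Matrix (Fin N) (Fin N) ℝ} (h : ∀ i j, b i j = b j i)
    (x y : Fin N → ℝ) : Matrix.toBilin' b x y = Matrix.toBilin' b y x := by
  rw [Matrix.toBilin'_apply, Matrix.toBilin'_apply, sum_comm]
  refine sum_congr rfl fun i _ => sum_congr rfl fun j _ => ?_
  rw [h j i]; ring

/-- From an approximation of the octahedron to a symmetric matrix. -/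
theorem exists_ind {N n : ℕ} {r : ℝ} (h : HasApprox N n r) (hr : r < 1 / 2) :
    ∃ b, Ind N n (r / (1 - r)) b := by
  have hr0 := h.nonneg
  obtain ⟨L, hL, y, hy, hyr⟩ := h.exists_matrix
  have hd : ∀ i, 1 - r ≤ y i i := by
    intro i
    have h1 := hyr i i
    rw [if_pos rfl, abs_le] at h1
    linarith [h1.1]
  have hd0 : ∀ i, 0 < y i i := fun i => by linarith [hd i]
  have hs0 : ∀ i, 0 < Real.sqrt (y i i) := fun i => Real.sqrt_pos.2 (hd0 i)
  have hss : ∀ i, Real.sqrt (y i i) * Real.sqrt (y i i) = y i i := fun i =>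
    Real.mul_self_sqrt (hd0 i).le
  refine ⟨Matrix.of fun i j => (y i j + y j i) / (2 * (Real.sqrt (y i i) * Real.sqrt (y j j))),
    fun i j => ?_, fun i => ?_, fun i j hij => ?_, ?_⟩
  · rw [Matrix.of_apply, Matrix.of_apply, add_comm, mul_comm (Real.sqrt (y i i))]
  · rw [Matrix.of_apply, hss, div_eq_one_iff_eq (by linarith [hd0 i])]; ring
  · rw [Matrix.of_apply]
    have h1 := hyr i j
    have h2 := hyr j i
    rw [if_neg hij, sub_zero] at h1
    rw [if_neg (Ne.symm hij), sub_zero] at h2
    have h3 : 1 - r ≤ Real.sqrt (y i i) * Real.sqrt (y j j) := by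
      have e : (1 - r) = Real.sqrt (1 - r) * Real.sqrt (1 - r) :=
        (Real.mul_self_sqrt (by linarith)).symm
      rw [e]
      exact mul_le_mul (Real.sqrt_le_sqrt (hd i)) (Real.sqrt_le_sqrt (hd j)) (Real.sqrt_nonneg _)
        (Real.sqrt_nonneg _)
    rw [abs_div, abs_of_pos (a := 2 * _) (by nlinarith [hs0 i, hs0 j])]
    have h4 : |y i j + y j i| ≤ 2 * r := by
      calc |y i j + y j i| ≤ |y i j| + |y j i| := abs_add_le _ _
        _ ≤ 2 * r := by linarith
    calc |y i j + y j i| / (2 * (Real.sqrt (y i i) * Real.sqrt (y j j)))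
        ≤ (2 * r) / (2 * (1 - r)) := by
          apply div_le_div₀ (by linarith) h4 (by linarith) (by linarith)
      _ = r / (1 - r) := by rw [mul_div_mul_left _ _ (by norm_num : (2 : ℝ) ≠ 0)]
  · set T : (Fin N → ℝ) →ₗ[ℝ] L :=
      { toFun := fun x => ∑ i, (x i / Real.sqrt (y i i)) • (⟨y i, hy i⟩ : L)
        map_add' := fun x z => by
          simp only [Pi.add_apply, add_div, add_smul, sum_add_distrib]
        map_smul' := fun c x => by
          simp only [Pi.smul_apply, smul_eq_mul, mul_div_assoc, mul_smul, smul_sum,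
            RingHom.id_apply] } with hT
    refine ⟨LinearMap.ker T, ?_, fun x hx => ?_⟩
    · have h1 := LinearMap.finrank_range_add_finrank_ker T
      have h2 : Module.finrank ℝ (LinearMap.range T) ≤ n :=
        (Submodule.finrank_le _).trans hL
      rw [Module.finrank_fin_fun] at h1
      omega
    · rw [LinearMap.mem_ker] at hx
      have h1 : ∀ j, ∑ i, (x i / Real.sqrt (y i i)) * y i j = 0 := by
        intro j
        have h2 : ((T x : L) : Fin N → ℝ) j = 0 := by rw [hx]; rfl
        rw [hT] at h2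
        simp only [LinearMap.coe_mk, AddHom.coe_mk, AddSubmonoidClass.coe_finsetSum,
          Finset.sum_apply, Submodule.coe_smul, Pi.smul_apply, smul_eq_mul] at h2
        exact h2
      rw [Matrix.toBilin'_apply]
      simp only [Matrix.of_apply]
      have e : ∀ i j, x i * ((y i j + y j i) / (2 * (Real.sqrt (y i i) * Real.sqrt (y j j)))) * x j
          = (1 / 2) * ((x j / Real.sqrt (y j j)) * ((x i / Real.sqrt (y i i)) * y i j)) +
            (1 / 2) * ((x i / Real.sqrt (y i i)) * ((x j / Real.sqrt (y j j)) * y j i)) := by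
        intro i j
        have h1 := (hs0 i).ne'
        have h2 := (hs0 j).ne'
        field_simp
      simp only [e, sum_add_distrib, ← mul_sum]
      have h3 : ∑ i, ∑ j, (x j / Real.sqrt (y j j)) * ((x i / Real.sqrt (y i i)) * y i j) = 0 := by
        rw [sum_comm]
        simp only [← mul_sum, h1, mul_zero, sum_const_zero]
      rw [h3]
      simp only [h1, mul_zero, sum_const_zero, add_zero, le_refl]

/-- There are no `n + 1` pairwise orthogonal vectors of positive square. -/
theorem Ind.no_pos {N n : ℕ} {μ : ℝ} {b : Matrix (Fin N) (Fin N) ℝ} (h : Ind N n μ b)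
    (v : Fin (n + 1) → Fin N → ℝ) (hv : ∀ i, 0 < Matrix.toBilin' b (v i) (v i))
    (ho : ∀ i j, i ≠ j → Matrix.toBilin' b (v i) (v j) = 0) : False := by
  obtain ⟨K, hK, hneg⟩ := h.neg
  set φ : (Fin (n + 1) → ℝ) →ₗ[ℝ] ((Fin N → ℝ) ⧸ K) :=
    K.mkQ ∘ₗ (Fintype.linearCombination ℝ v) with hφ
  have h1 : Module.finrank ℝ ((Fin N → ℝ) ⧸ K) < Module.finrank ℝ (Fin (n + 1) → ℝ) := by
    have := Submodule.finrank_quotient_add_finrank K
    rw [Module.finrank_fin_fun] at this ⊢
    omega
  have h2 : LinearMap.ker φ ≠ ⊥ := LinearMap.ker_ne_bot_of_finrank_lt h1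
  obtain ⟨c, hc, hc0⟩ := (Submodule.ne_bot_iff _).1 h2
  rw [LinearMap.mem_ker, hφ, LinearMap.comp_apply, Submodule.mkQ_apply,
    Submodule.Quotient.mk_eq_zero] at hc
  have h3 := hneg _ hc
  rw [Fintype.linearCombination_apply] at h3
  simp only [map_sum, LinearMap.sum_apply, map_smul, LinearMap.smul_apply, smul_eq_mul] at h3
  have h4 : ∑ i, ∑ j, c j * (c i * Matrix.toBilin' b (v i) (v j)) =
      ∑ i, (c i) ^ 2 * Matrix.toBilin' b (v i) (v i) := by
    refine sum_congr rfl fun i _ => ?_
    rw [sum_eq_single i]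
    · ring
    · intro j _ hj
      rw [ho i j (Ne.symm hj)]; ring
    · simp
  have h5 : ∑ i, (c i) ^ 2 * Matrix.toBilin' b (v i) (v i) ≤ 0 := by
    rw [← h4]
    refine le_trans (le_of_eq ?_) h3
    simp only [mul_sum]
    rw [sum_comm]
  apply hc0
  funext i
  have h6 : ∀ i ∈ (univ : Finset (Fin (n + 1))), 0 ≤ (c i) ^ 2 * Matrix.toBilin' b (v i) (v i) :=
    fun i _ => mul_nonneg (sq_nonneg _) (hv i).le
  have h7 := (sum_eq_zero_iff_of_nonneg h6).1 (le_antisymm h5 (sum_nonneg h6)) i (mem_univ i)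
  rcases mul_eq_zero.1 h7 with h8 | h8
  · simpa using pow_eq_zero_iff (two_ne_zero) |>.1 h8
  · exact absurd h8 (hv i).ne'

end Pool.Agent.EE
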