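import Pool.Agent.EE.Psd

/-! A path of matrices with a common kernel vector leaves the positive semidefinite cone through a
matrix of corank at least two. -/

namespace Pool.Agent.EE

open Finset

theorem ker_of_psd {N : ℕ} {b : Matrix (Fin N) (Fin N) ℝ} (hsymm : ∀ i j, b i j = b j i)
    (hpsd : ∀ x, 0 ≤ Matrix.toBilin' b x x) {x : Fin N → ℝ} (hx : Matrix.toBilin' b x x = 0)
    (y : Fin N → ℝ) : Matrix.toBilin' b y x = 0 := by
  set B := Matrix.toBilin' b
  have hs : B x y = B y x := toBilin'_comm hsymm x y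
  by_contra hne
  have h1 : ∀ t : ℝ, 0 ≤ B y y + 2 * t * B y x := by
    intro t
    have h2 := hpsd (y + t • x)
    simp only [map_add, map_smul, LinearMap.add_apply, LinearMap.smul_apply, smul_eq_mul] at h2
    rw [hs, hx] at h2
    linarith
  have h2 := h1 (-(B y y + 1) / (2 * B y x))
  have h3 : 2 * (-(B y y + 1) / (2 * B y x)) * B y x = -(B y y + 1) := by
    field_simp
  rw [h3] at h2
  linarith

theorem exists_path {N : ℕ} (b0 b1 : Matrix (Fin N) (Fin N) ℝ) (hs0 : ∀ i j, b0 i j = b0 j i)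
    (hs1 : ∀ i j, b1 i j = b1 j i) (f : Fin N → ℝ) (hf : f ≠ 0)
    (hf0 : ∀ y, Matrix.toBilin' b0 y f = 0) (hf1 : ∀ y, Matrix.toBilin' b1 y f = 0)
    (hp : ∀ x, 0 ≤ Matrix.toBilin' b0 x x) (hn : ∃ x, Matrix.toBilin' b1 x x < 0) :
    ∃ s : ℝ, 0 ≤ s ∧ s ≤ 1 ∧ (∀ x, 0 ≤ Matrix.toBilin' ((1 - s) • b0 + s • b1) x x) ∧
      ∃ K : Submodule ℝ (Fin N → ℝ), 2 ≤ Module.finrank ℝ K ∧
        ∀ x ∈ K, ∀ y, Matrix.toBilin' ((1 - s) • b0 + s • b1) y x = 0 := by
  classical
  set B : ℝ → (Fin N → ℝ) → (Fin N → ℝ) → ℝ := fun s x y =>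
    (1 - s) * Matrix.toBilin' b0 x y + s * Matrix.toBilin' b1 x y with hB
  have hBe : ∀ s x y, Matrix.toBilin' ((1 - s) • b0 + s • b1) x y = B s x y := by
    intro s x y
    rw [map_add, map_smul, map_smul]
    rfl
  have hsymm : ∀ s : ℝ, ∀ i j, ((1 - s) • b0 + s • b1) i j = ((1 - s) • b0 + s • b1) j i := by
    intro s i j
    simp only [Matrix.add_apply, Matrix.smul_apply, hs0 i j, hs1 i j]
  have hfs : ∀ (s : ℝ) y, B s y f = 0 := by
    intro s y
    simp only [hB, hf0, hf1, mul_zero, add_zero]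
  set P : Set ℝ := {s | 0 ≤ s ∧ s ≤ 1 ∧ ∀ x, 0 ≤ B s x x} with hP
  have hcont : ∀ x y, Continuous fun s => B s x y := by
    intro x y
    simp only [hB]
    fun_prop
  have hPc : IsClosed P := by
    have : P = Set.Icc 0 1 ∩ ⋂ x, {s | 0 ≤ B s x x} := by
      ext s
      simp [hP, and_assoc]
    rw [this]
    exact isClosed_Icc.inter (isClosed_iInter fun x => isClosed_le continuous_const (hcont x x))
  have hPn : P.Nonempty := ⟨0, le_refl _, zero_le_one, fun x => by
    simp only [hB, sub_zero, one_mul, zero_mul, add_zero]; exact hp x⟩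
  have hPb : BddAbove P := ⟨1, fun s hs => hs.2.1⟩
  set s := sSup P with hs
  have hsP : s ∈ P := hPc.csSup_mem hPn hPb
  obtain ⟨hs00, hs11, hspsd⟩ := hsP
  have hslt : s < 1 := by
    refine lt_of_le_of_ne hs11 fun h => ?_
    obtain ⟨x, hx⟩ := hn
    have := hspsd x
    simp only [hB, h, sub_self, zero_mul, zero_add, one_mul] at this
    linarith
  refine ⟨s, hs00, hs11, fun x => by rw [hBe]; exact hspsd x, ?_⟩
  set c := (1 - s) • b0 + s • b1 with hc
  have hcp : ∀ x, 0 ≤ Matrix.toBilin' c x x := fun x => by rw [hBe]; exact hspsd x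
  -- the kernel
  set K : Submodule ℝ (Fin N → ℝ) := LinearMap.ker ((Matrix.toBilin' c).flip) with hK
  have hKm : ∀ x, x ∈ K ↔ ∀ y, Matrix.toBilin' c y x = 0 := by
    intro x
    rw [hK, LinearMap.mem_ker]
    constructor
    · intro h y
      have := LinearMap.congr_fun h y
      simpa using this
    · intro h
      exact LinearMap.ext fun y => h y
  refine ⟨K, ?_, fun x hx => (hKm x).1 hx⟩
  by_contra hlt
  rw [not_le] at hlt
  have hfK : f ∈ K := (hKm f).2 fun y => by rw [hBe]; exact hfs s y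
  have hone : ∀ x ∈ K, ∃ t : ℝ, t • f = x := by
    intro x hx
    have h1 : Module.finrank ℝ K = 1 := by
      have : 0 < Module.finrank ℝ K := by
        rw [Module.finrank_pos_iff_exists_ne_zero]
        exact ⟨⟨f, hfK⟩, fun h => hf (congrArg Subtype.val h)⟩
      omega
    obtain ⟨t, ht⟩ := exists_smul_eq_of_finrank_eq_one h1 (x := (⟨f, hfK⟩ : K))
      (fun h => hf (congrArg Subtype.val h)) ⟨x, hx⟩
    exact ⟨t, congrArg Subtype.val ht⟩
  -- the compact set
  set Sph : Set (Fin N → ℝ) := {x | ∑ i, x i ^ 2 = 1 ∧ ∑ i, x i * f i = 0} with hS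
  have hSc : IsCompact Sph := by
    have hcl : IsClosed Sph := by
      have e : Sph = {x | ∑ i, x i ^ 2 = 1} ∩ {x | ∑ i, x i * f i = 0} := rfl
      rw [e]
      exact (isClosed_eq (by fun_prop) continuous_const).inter
        (isClosed_eq (by fun_prop) continuous_const)
    refine (isCompact_univ_pi (fun _ : Fin N => isCompact_Icc (a := (-1 : ℝ)) (b := 1))).of_isClosed_subset
      hcl fun x hx => ?_
    intro i _
    have h1 : x i ^ 2 ≤ 1 := by
      rw [← hx.1]
      exact single_le_sum (f := fun i => x i ^ 2) (fun i _ => sq_nonneg _) (mem_univ i)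
    rw [Set.mem_Icc]
    exact abs_le.1 (by rw [← sq_abs] at h1; nlinarith [abs_nonneg (x i)])
  have hff : 0 < ∑ i, f i ^ 2 := by
    obtain ⟨i, hi⟩ : ∃ i, f i ≠ 0 := by
      by_contra hcon
      push Not at hcon
      exact hf (funext hcon)
    exact sum_pos' (fun i _ => sq_nonneg _) ⟨i, mem_univ i, by positivity⟩
  have hpos : ∀ x ∈ Sph, 0 < B s x x := by
    intro x hx
    refine lt_of_le_of_ne (hspsd x) fun h => ?_
    have h1 : x ∈ K := (hKm x).2 fun y => ker_of_psd (hsymm s) hcp (by rw [hBe]; exact h.symm) y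
    obtain ⟨t, rfl⟩ := hone x h1
    have h2 := hx.2
    have h3 : ∑ i, (t • f) i * f i = t * ∑ i, f i ^ 2 := by
      rw [mul_sum]
      refine sum_congr rfl fun i _ => ?_
      rw [Pi.smul_apply, smul_eq_mul]; ring
    rw [h3] at h2
    rcases mul_eq_zero.1 h2 with h4 | h4
    · have := hx.1
      rw [h4] at this
      simp at this
    · exact hff.ne' h4
  have hBc : Continuous fun q : ℝ × (Fin N → ℝ) => B q.1 q.2 q.2 := by
    simp only [hB, Matrix.toBilin'_apply]
    fun_prop
  -- an interval to the right of `s`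
  obtain ⟨ε, hε, hεP⟩ : ∃ ε > 0, ∀ s', s ≤ s' → s' < s + ε → ∀ x ∈ Sph, 0 < B s' x x := by
    have hopen : IsOpen {q : ℝ × (Fin N → ℝ) | 0 < B q.1 q.2 q.2} :=
      isOpen_lt continuous_const hBc
    have h1 := generalized_tube_lemma (s := {s}) (t := Sph) isCompact_singleton hSc hopen (by
      rintro ⟨a, x⟩ ⟨ha, hx⟩
      rw [Set.mem_singleton_iff] at ha
      simp only at ha hx
      show 0 < B a x x
      rw [ha]; exact hpos x hx)
    obtain ⟨u, v, hu, hv, hsu, hSv, huv⟩ := h1
    obtain ⟨ε, hε, hball⟩ := Metric.isOpen_iff.1 hu s (hsu rfl)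
    refine ⟨ε, hε, fun s' h1 h2 x hx => ?_⟩
    have h3 : s' ∈ u := hball (by
      rw [Metric.mem_ball, Real.dist_eq, abs_of_nonneg (by linarith)]; linarith)
    exact huv (show (s', x) ∈ u ×ˢ v from ⟨h3, hSv hx⟩)
  set s' := min 1 (s + ε / 2) with hs'
  have hs's : s < s' := lt_min hslt (by linarith)
  have hs'P : s' ∈ P := by
    refine ⟨by linarith, min_le_left _ _, fun x => ?_⟩
    have hlt' : s' < s + ε := (min_le_right _ _).trans_lt (by linarith)
    -- decompose `x`
    set t := (∑ i, x i * f i) / ∑ i, f i ^ 2 with ht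
    set y := x - t • f with hy
    have hyf : ∑ i, y i * f i = 0 := by
      have : ∑ i, y i * f i = ∑ i, x i * f i - t * ∑ i, f i ^ 2 := by
        rw [mul_sum, ← sum_sub_distrib]
        refine sum_congr rfl fun i _ => ?_
        rw [hy, Pi.sub_apply, Pi.smul_apply, smul_eq_mul]; ring
      rw [this, ht, div_mul_cancel₀ _ hff.ne', sub_self]
    have hxy : B s' x x = B s' y y := by
      rw [← hBe, ← hBe]
      have hx : x = y + t • f := by rw [hy]; abel
      have h1 : ∀ z, Matrix.toBilin' ((1 - s') • b0 + s' • b1) z f = 0 := fun z => by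
        rw [hBe]; exact hfs s' z
      have h2 : ∀ z, Matrix.toBilin' ((1 - s') • b0 + s' • b1) f z = 0 := fun z => by
        rw [toBilin'_comm (hsymm s')]; exact h1 z
      generalize (1 - s') • b0 + s' • b1 = M at h1 h2 ⊢
      conv_lhs => rw [hx]
      simp only [map_add, map_smul, LinearMap.add_apply, LinearMap.smul_apply, h1, h2, smul_zero,
        add_zero]
    rw [hxy]
    by_cases hy0 : ∑ i, y i ^ 2 = 0
    · have : y = 0 := by
        funext i
        have := (sum_eq_zero_iff_of_nonneg (fun i _ => sq_nonneg (y i))).1 hy0 i (mem_univ i)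
        simpa using this
      rw [this]
      simp [hB]
    · have hy1 : 0 < ∑ i, y i ^ 2 := lt_of_le_of_ne (sum_nonneg fun i _ => sq_nonneg _) (Ne.symm hy0)
      set r := Real.sqrt (∑ i, y i ^ 2) with hr
      have hr0 : 0 < r := Real.sqrt_pos.2 hy1
      have hr2 : r ^ 2 = ∑ i, y i ^ 2 := Real.sq_sqrt hy1.le
      have hz : (1 / r) • y ∈ Sph := by
        constructor
        · have : ∑ i, ((1 / r) • y) i ^ 2 = (1 / r) ^ 2 * ∑ i, y i ^ 2 := by
            rw [mul_sum]
            refine sum_congr rfl fun i _ => ?_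
            rw [Pi.smul_apply, smul_eq_mul]; ring
          rw [this, ← hr2]; field_simp
        · have : ∑ i, ((1 / r) • y) i * f i = (1 / r) * ∑ i, y i * f i := by
            rw [mul_sum]
            refine sum_congr rfl fun i _ => ?_
            rw [Pi.smul_apply, smul_eq_mul]; ring
          rw [this, hyf, mul_zero]
      have h1 := hεP s' hs's.le hlt' _ hz
      have h2 : B s' ((1 / r) • y) ((1 / r) • y) = (1 / r) ^ 2 * B s' y y := by
        rw [← hBe, ← hBe]
        simp only [map_smul, LinearMap.smul_apply, smul_eq_mul]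
        ring
      rw [h2] at h1
      have h3 : 0 < (1 / r) ^ 2 := by positivity
      by_contra hneg
      have := mul_nonpos_of_nonneg_of_nonpos h3.le (not_le.1 hneg).le
      linarith
  exact absurd (le_csSup hPb hs'P) (not_le.2 hs's)

end Pool.Agent.EE
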