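import Pool.Agent.EE.Defs

/-! From positive semidefinite matrices to unit vectors; codimension one. -/

namespace Pool.Agent.EE

open Finset Pool.Agent.MP_943f09_an

/-- A positive semidefinite matrix with unit diagonal, small entries and a large kernel is the
Gram matrix of unit vectors in low dimension. -/
theorem hasDict_of_psd {N n : ℕ} {μ : ℝ} (b : Matrix (Fin N) (Fin N) ℝ)
    (hsymm : ∀ i j, b i j = b j i) (hdiag : ∀ i, b i i = 1) (hoff : ∀ i j, i ≠ j → |b i j| ≤ μ)
    (hpsd : ∀ x, 0 ≤ Matrix.toBilin' b x x) (K : Submodule ℝ (Fin N → ℝ))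
    (hK : N ≤ n + Module.finrank ℝ K) (hker : ∀ x ∈ K, ∀ i, ∑ j, b i j * x j = 0) :
    HasDict N n μ := by
  classical
  have hps : b.PosSemidef := by
    refine Matrix.PosSemidef.of_dotProduct_mulVec_nonneg ?_ ?_
    · ext i j
      rw [Matrix.conjTranspose_apply, star_trivial, hsymm]
    · intro x
      have h1 := hpsd x
      rw [Matrix.toBilin'_apply'] at h1
      simpa using h1
  obtain ⟨m, v, hv⟩ := Matrix.posSemidef_iff_eq_sum_vecMulVec.1 hps
  set x : Fin N → EuclideanSpace ℝ (Fin m) := fun i => WithLp.toLp 2 (fun k => v k i) with hx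
  have hin : ∀ i j, inner ℝ (x i) (x j) = b i j := by
    intro i j
    rw [hv, PiLp.inner_apply, Matrix.sum_apply]
    refine sum_congr rfl fun k _ => ?_
    simp [hx, Matrix.vecMulVec_apply, mul_comm]
  set Λ : (Fin N → ℝ) →ₗ[ℝ] EuclideanSpace ℝ (Fin m) := Fintype.linearCombination ℝ x with hΛ
  have hΛK : K ≤ LinearMap.ker Λ := by
    intro c hc
    rw [LinearMap.mem_ker]
    have h1 : inner ℝ (Λ c) (Λ c) = 0 := by
      rw [hΛ, Fintype.linearCombination_apply, sum_inner]
      refine sum_eq_zero fun i _ => ?_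
      rw [inner_sum]
      have h2 := hker c hc i
      have : ∑ j, inner ℝ (c i • x i) (c j • x j) = c i * ∑ j, b i j * c j := by
        rw [mul_sum]
        refine sum_congr rfl fun j _ => ?_
        rw [real_inner_smul_left, real_inner_smul_right, hin]; ring
      rw [this, h2, mul_zero]
    exact inner_self_eq_zero.1 h1
  have hr : Module.finrank ℝ (LinearMap.range Λ) ≤ n := by
    have h1 := LinearMap.finrank_range_add_finrank_ker Λ
    have h2 := Submodule.finrank_mono hΛK
    rw [Module.finrank_fin_fun] at h1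
    omega
  refine hasDict_of_family x (LinearMap.range Λ) (fun i => ⟨Pi.single i 1, ?_⟩) hr (fun i => ?_)
    (fun i j hij => ?_)
  · rw [hΛ, Fintype.linearCombination_apply_single, one_smul]
  · have h1 := hin i i
    rw [hdiag, real_inner_self_eq_norm_sq] at h1
    nlinarith [norm_nonneg (x i)]
  · rw [hin]; exact hoff i j hij

/-- Codimension one: the simplex. -/
theorem hasDict_codim_one {N : ℕ} (hN : 2 ≤ N) (μ : ℝ) (b : Matrix (Fin N) (Fin N) ℝ)
    (h : Ind N (N - 1) μ b) : HasDict N (N - 1) μ := by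
  classical
  obtain ⟨K, hK, hneg⟩ := h.neg
  have hμ0 : 0 ≤ μ := (abs_nonneg _).trans
    (h.off (⟨0, by omega⟩ : Fin N) ⟨1, by omega⟩ (by simp))
  have hN0 : (0 : ℝ) < N - 1 := by
    have : (2 : ℝ) ≤ N := by exact_mod_cast hN
    linarith
  -- a nonzero vector where the form is nonpositive
  have hK1 : K ≠ ⊥ := by
    intro hb
    rw [hb, finrank_bot] at hK
    omega
  obtain ⟨x, hxK, hx0⟩ := (Submodule.ne_bot_iff _).1 hK1
  have hx := hneg x hxK
  have hsq : 0 < ∑ i, x i ^ 2 := by
    obtain ⟨i, hi⟩ : ∃ i, x i ≠ 0 := by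
      by_contra hcon
      push Not at hcon
      exact hx0 (funext hcon)
    exact sum_pos' (fun i _ => sq_nonneg _) ⟨i, mem_univ i, by positivity⟩
  have hcs : (∑ i, |x i|) ^ 2 ≤ N * ∑ i, x i ^ 2 := by
    have h1 := sq_sum_le_card_mul_sum_sq (s := (univ : Finset (Fin N))) (f := fun i => |x i|)
    simpa using h1
  have hlow : (1 + μ) * ∑ i, x i ^ 2 - μ * (∑ i, |x i|) ^ 2 ≤ Matrix.toBilin' b x x := by
    rw [Matrix.toBilin'_apply, sq (∑ i, |x i|), sum_mul_sum, mul_sum, mul_sum, ← sum_sub_distrib]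
    refine sum_le_sum fun i _ => ?_
    have e : (1 + μ) * x i ^ 2 = ∑ j, if j = i then (1 + μ) * x i ^ 2 else 0 := by simp
    rw [e, mul_sum, ← sum_sub_distrib]
    refine sum_le_sum fun j _ => ?_
    split_ifs with hij
    · subst hij
      rw [h.diag]
      have : |x j| * |x j| = x j ^ 2 := by rw [← sq, sq_abs]
      rw [this]; nlinarith
    · have h1 : |x i * b i j * x j| ≤ μ * (|x i| * |x j|) := by
        rw [abs_mul, abs_mul]
        have := h.off i j (Ne.symm hij)
        nlinarith [mul_nonneg (abs_nonneg (x i)) (abs_nonneg (x j))]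
      have h2 := neg_abs_le (x i * b i j * x j)
      linarith
  have hμ : 1 / ((N : ℝ) - 1) ≤ μ := by
    rw [div_le_iff₀ hN0]
    have h1 : (1 + μ) * ∑ i, x i ^ 2 ≤ μ * (N * ∑ i, x i ^ 2) := by
      have := mul_le_mul_of_nonneg_left hcs hμ0
      linarith
    nlinarith
  -- the simplex
  refine HasDict.mono ?_ hμ
  refine hasDict_of_psd (Matrix.of fun i j => if i = j then 1 else -(1 / ((N : ℝ) - 1)))
    (fun i j => ?_) (fun i => ?_) (fun i j hij => ?_) (fun y => ?_)
    (Submodule.span ℝ {fun _ => (1 : ℝ)}) ?_ ?_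
  · simp only [Matrix.of_apply, eq_comm]
  · simp
  · rw [Matrix.of_apply, if_neg hij, abs_neg, abs_of_pos (by positivity)]
  · rw [Matrix.toBilin'_apply]
    have e : ∑ i, ∑ j, y i * (Matrix.of fun i j : Fin N => if i = j then (1 : ℝ) else
        -(1 / ((N : ℝ) - 1))) i j * y j = (N / ((N : ℝ) - 1)) * ∑ i, y i ^ 2 -
        (1 / ((N : ℝ) - 1)) * (∑ i, y i) ^ 2 := by
      rw [sq (∑ i, y i), sum_mul_sum, mul_sum, mul_sum, ← sum_sub_distrib]
      refine sum_congr rfl fun i _ => ?_
      have e : (N / ((N : ℝ) - 1)) * y i ^ 2 = ∑ j, if j = i then (N / ((N : ℝ) - 1)) * y i ^ 2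
        else 0 := by simp
      rw [e, mul_sum, ← sum_sub_distrib]
      refine sum_congr rfl fun j _ => ?_
      rw [Matrix.of_apply]
      by_cases hij : i = j
      · subst hij
        rw [if_pos rfl, if_pos rfl]
        field_simp
      · rw [if_neg hij, if_neg (Ne.symm hij)]; ring
    rw [e]
    have h1 : (∑ i, y i) ^ 2 ≤ N * ∑ i, y i ^ 2 := by
      have h1 := sq_sum_le_card_mul_sum_sq (s := (univ : Finset (Fin N))) (f := fun i => y i)
      simpa using h1
    have h2 : (1 / ((N : ℝ) - 1)) * (∑ i, y i) ^ 2 ≤ (1 / ((N : ℝ) - 1)) * (N * ∑ i, y i ^ 2) :=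
      mul_le_mul_of_nonneg_left h1 (by positivity)
    have h3 : (1 / ((N : ℝ) - 1)) * (N * ∑ i, y i ^ 2) = (N / ((N : ℝ) - 1)) * ∑ i, y i ^ 2 := by
      ring
    linarith
  · rw [finrank_span_singleton]
    · omega
    · intro h0
      have := congrFun h0 (⟨0, by omega⟩ : Fin N)
      simp at this
  · intro z hz i
    obtain ⟨c, rfl⟩ := Submodule.mem_span_singleton.1 hz
    simp only [Matrix.of_apply, Pi.smul_apply, smul_eq_mul, mul_one]
    rw [← sum_mul]
    have : ∑ j, (if i = j then (1 : ℝ) else -(1 / ((N : ℝ) - 1))) = 0 := by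
      rw [← add_sum_erase _ _ (mem_univ i), if_pos rfl]
      rw [sum_congr rfl (fun j hj => if_neg (Ne.symm (ne_of_mem_erase hj)))]
      rw [sum_const, card_erase_of_mem (mem_univ i), card_univ, Fintype.card_fin, nsmul_eq_mul,
        Nat.cast_sub (by omega)]
      push_cast
      field_simp
      ring
    rw [this, zero_mul]

end Pool.Agent.EE
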