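import Pool.Agent.EE.Defs

/-! The case of dimension at most two. -/

namespace Pool.Agent.EE

open Finset Pool.Agent.MP_943f09_an

theorem bil_single {N : ℕ} (b : Matrix (Fin N) (Fin N) ℝ) (i j : Fin N) :
    Matrix.toBilin' b (Pi.single i 1) (Pi.single j 1) = b i j := by
  rw [Matrix.toBilin'_single]

/-- Dimension one: impossible below `1`. -/
theorem ind_one {N : ℕ} (hN : 2 ≤ N) (μ : ℝ) (b : Matrix (Fin N) (Fin N) ℝ) (hμ : μ < 1)
    (h : Ind N 1 μ b) : False := by
  set i0 : Fin N := ⟨0, by omega⟩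
  set i1 : Fin N := ⟨1, by omega⟩
  have h01 : i0 ≠ i1 := by simp [i0, i1]
  have ha := h.off i0 i1 h01
  rw [abs_le] at ha
  set e0 : Fin N → ℝ := Pi.single i0 1
  set e1 : Fin N → ℝ := Pi.single i1 1
  have h00 : Matrix.toBilin' b e0 e0 = 1 := by rw [bil_single, h.diag]
  have h11 : Matrix.toBilin' b e1 e1 = 1 := by rw [bil_single, h.diag]
  have h10 : Matrix.toBilin' b e1 e0 = b i0 i1 := by rw [bil_single, h.symm]
  have h01' : Matrix.toBilin' b e0 e1 = b i0 i1 := by rw [bil_single]
  refine h.no_pos ![e0, e1 - (b i0 i1) • e0] ?_ ?_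
  · intro i
    fin_cases i
    · simp [h00]
    · simp only [Fin.mk_one, Matrix.cons_val_one, Matrix.cons_val_fin_one, map_sub, map_smul,
        LinearMap.sub_apply, LinearMap.smul_apply, smul_eq_mul, h00, h11, h10, h01']
      nlinarith
  · intro i j hij
    fin_cases i <;> fin_cases j
    · exact absurd rfl hij
    · simp [h00, h01']
    · simp [h00, h10]
    · exact absurd rfl hij

/-- Real numbers: the reversed Cauchy-Schwarz inequality. -/
theorem rev_cs {p q A B ρ : ℝ} (hA : 0 ≤ A) (hB : 0 ≤ B) (hp : 0 ≤ p) (hq : 0 ≤ q)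
    (hpA : A ≤ p ^ 2) (hqB : B ≤ q ^ 2) (hρ : ρ ^ 2 ≤ (p ^ 2 - A) * (q ^ 2 - B)) :
    Real.sqrt A * Real.sqrt B ≤ p * q - ρ := by
  have ha := Real.sqrt_nonneg A
  have hb := Real.sqrt_nonneg B
  have ha2 := Real.sq_sqrt hA
  have hb2 := Real.sq_sqrt hB
  set a := Real.sqrt A
  set c := Real.sqrt B
  rw [← ha2] at hpA hρ
  rw [← hb2] at hqB hρ
  have hap : a ≤ p := by nlinarith
  have hcq : c ≤ q := by nlinarith
  have h1 : 0 ≤ p * q - a * c := by nlinarith
  have h2 : ρ ^ 2 ≤ (p * q - a * c) ^ 2 := by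
    refine hρ.trans ?_
    nlinarith [sq_nonneg (p * c - q * a)]
  have h3 : ρ ≤ p * q - a * c := by
    exact (abs_le_of_sq_le_sq' h2 h1).2
  linarith

/-- Dimension two: pivoting on the first vector. -/
theorem hasDict_two {N : ℕ} (hN : 3 ≤ N) (μ : ℝ) (b : Matrix (Fin N) (Fin N) ℝ) (hμ : μ < 1)
    (h : Ind N 2 μ b) : HasDict N 2 μ := by
  set i0 : Fin N := ⟨0, by omega⟩ with hi0
  set i1 : Fin N := ⟨1, by omega⟩ with hi1
  have h01 : i0 ≠ i1 := by simp [i0, i1]
  have hsym := toBilin'_comm h.symm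
  have hμ0 : 0 ≤ μ := (abs_nonneg _).trans (h.off i0 i1 h01)
  set B := Matrix.toBilin' b with hB
  set e : Fin N → Fin N → ℝ := fun i => Pi.single i 1 with he
  have hee : ∀ i j, B (e i) (e j) = b i j := fun i j => bil_single b i j
  set a : Fin N → ℝ := fun j => b i0 j with ha
  have ha0 : a i0 = 1 := h.diag i0
  have ha1 : ∀ j, j ≠ i0 → |a j| ≤ μ := fun j hj => h.off i0 j (Ne.symm hj)
  have hA : ∀ j, j ≠ i0 → 0 < 1 - a j ^ 2 := by
    intro j hj
    have h1 := ha1 j hj
    have h2 : a j ^ 2 ≤ μ ^ 2 := by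
      rw [← sq_abs (a j)]
      exact pow_le_pow_left₀ (abs_nonneg _) h1 2
    nlinarith
  -- the vectors orthogonal to `e i0`
  set u : Fin N → Fin N → ℝ := fun j => e j - a j • e i0 with hu
  have hu0 : ∀ j, B (u j) (e i0) = 0 := by
    intro j
    simp only [hu, map_sub, map_smul, LinearMap.sub_apply, LinearMap.smul_apply, smul_eq_mul, hee,
      h.diag, ha]
    rw [h.symm j i0]; ring
  have huu : ∀ i j, B (u i) (u j) = b i j - a i * a j := by
    intro i j
    simp only [hu, map_sub, map_smul, LinearMap.sub_apply, LinearMap.smul_apply, smul_eq_mul, hee,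
      h.diag, ha]
    rw [h.symm i i0]; ring
  have hujj : ∀ j, B (u j) (u j) = 1 - a j ^ 2 := by
    intro j; rw [huu, h.diag]; ring
  set S : ℝ := 1 - a i1 ^ 2 with hS
  have hS0 : 0 < S := hA i1 (Ne.symm h01)
  -- the second pivot
  set w : Fin N → Fin N → ℝ := fun j => u j - (B (u i1) (u j) / S) • u i1 with hw
  have hw0 : ∀ j, B (w j) (e i0) = 0 := by
    intro j
    simp only [hw, map_sub, map_smul, LinearMap.sub_apply, LinearMap.smul_apply, smul_eq_mul, hu0,
      mul_zero, sub_zero]
  have hw1 : ∀ j, B (w j) (u i1) = 0 := by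
    intro j
    simp only [hw, map_sub, map_smul, LinearMap.sub_apply, LinearMap.smul_apply, smul_eq_mul]
    rw [hujj, hsym (u j) (u i1), div_mul_cancel₀ _ hS0.ne', sub_self]
  have hwneg : ∀ z, B z (e i0) = 0 → B z (u i1) = 0 → B z z ≤ 0 := by
    intro z hz0 hz1
    by_contra hz
    rw [not_le] at hz
    have hz0' : B (e i0) z = 0 := by rw [hsym]; exact hz0
    have hz1' : B (u i1) z = 0 := by rw [hsym]; exact hz1
    have hu0' : B (e i0) (u i1) = 0 := by rw [hsym]; exact hu0 i1
    refine h.no_pos ![e i0, u i1, z] ?_ ?_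
    · intro i
      fin_cases i
      · show 0 < B (e i0) (e i0)
        rw [hee, h.diag]; exact one_pos
      · show 0 < B (u i1) (u i1)
        rw [hujj]; exact hS0
      · exact hz
    · intro i j hij
      fin_cases i <;> fin_cases j
      · exact absurd rfl hij
      · exact hu0'
      · exact hz0'
      · exact hu0 i1
      · exact absurd rfl hij
      · exact hz1'
      · exact hz0
      · exact hz1
      · exact absurd rfl hij
  set p : Fin N → ℝ := fun j => B (u i1) (u j) / Real.sqrt S with hp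
  have hsS : 0 < Real.sqrt S := Real.sqrt_pos.2 hS0
  have hsS2 : Real.sqrt S * Real.sqrt S = S := Real.mul_self_sqrt hS0.le
  have hww : ∀ i j, B (w i) (w j) = (b i j - a i * a j) - p i * p j := by
    intro i j
    have e1 : B (w i) (w j) = B (w i) (u j) := by
      have : w j = u j - (B (u i1) (u j) / S) • u i1 := rfl
      rw [this, map_sub, map_smul, hw1, smul_zero, sub_zero]
    have e2 : B (w i) (u j) = B (u i) (u j) - (B (u i1) (u i) / S) * B (u i1) (u j) := by
      have : w i = u i - (B (u i1) (u i) / S) • u i1 := rfl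
      rw [this, LinearMap.map_sub₂, LinearMap.map_smul₂, smul_eq_mul]
    rw [e1, e2, ← huu]
    have h2 : B (u i1) (u i) / S * B (u i1) (u j) = p i * p j := by
      simp only [hp]
      rw [div_mul_div_comm, hsS2]; ring
    rw [h2]
  have hwjj : ∀ j, B (w j) (w j) = (1 - a j ^ 2) - p j ^ 2 := by
    intro j; rw [hww, h.diag]; ring
  have hpj : ∀ j, 1 - a j ^ 2 ≤ p j ^ 2 := by
    intro j
    have := hwneg (w j) (hw0 j) (hw1 j)
    rw [hwjj] at this
    linarith
  have hcs : ∀ i j, B (w i) (w j) ^ 2 ≤ (p i ^ 2 - (1 - a i ^ 2)) * (p j ^ 2 - (1 - a j ^ 2)) := by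
    intro i j
    have hq : ∀ t s : ℝ, t ^ 2 * B (w i) (w i) + 2 * t * s * B (w i) (w j) +
        s ^ 2 * B (w j) (w j) ≤ 0 := by
      intro t s
      have h1 := hwneg (t • w i + s • w j) (by
        simp only [map_add, map_smul, LinearMap.add_apply, LinearMap.smul_apply, hw0, smul_zero,
          add_zero]) (by
        simp only [map_add, map_smul, LinearMap.add_apply, LinearMap.smul_apply, hw1, smul_zero,
          add_zero])
      simp only [map_add, map_smul, LinearMap.add_apply, LinearMap.smul_apply, smul_eq_mul] at h1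
      rw [hsym (w j) (w i)] at h1
      linarith
    have h1 := hwjj i
    have h2 := hwjj j
    set x := B (w i) (w i)
    set y := B (w i) (w j)
    set z := B (w j) (w j)
    have e1 : p i ^ 2 - (1 - a i ^ 2) = -x := by linarith
    have e2 : p j ^ 2 - (1 - a j ^ 2) = -z := by linarith
    rw [e1, e2]
    have hx : x ≤ 0 := by simpa using hq 1 0
    have hz : z ≤ 0 := by simpa using hq 0 1
    rcases eq_or_lt_of_le hx with hx0 | hx0
    · -- then `y = 0`
      have h3 : ∀ t, 2 * t * y + z ≤ 0 := by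
        intro t
        have := hq t 1
        rw [hx0] at this
        linarith
      have hy : y = 0 := by
        by_contra hy
        have := h3 ((1 - z) / (2 * y))
        have h4 : 2 * ((1 - z) / (2 * y)) * y = 1 - z := by field_simp
        rw [h4] at this
        linarith
      rw [hy, hx0]; simp
    · have := hq y (-x)
      nlinarith
  -- the new vectors
  set s : Fin N → ℝ := fun j => if 0 ≤ p j then 1 else -1 with hs
  have hs2 : ∀ j, s j * s j = 1 := by
    intro j; simp only [hs]; split_ifs <;> norm_num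
  have hsp : ∀ j, s j * p j = |p j| := by
    intro j; simp only [hs]
    split_ifs with hj
    · rw [abs_of_nonneg hj, one_mul]
    · rw [abs_of_neg (not_le.1 hj)]; ring
  set c : Fin N → ℝ := fun j => Real.sqrt (1 - a j ^ 2) with hc
  have hAj : ∀ j, 0 ≤ 1 - a j ^ 2 := by
    intro j
    by_cases hj : j = i0
    · rw [hj, ha0]; norm_num
    · exact (hA j hj).le
  have hc2 : ∀ j, c j ^ 2 = 1 - a j ^ 2 := fun j => Real.sq_sqrt (hAj j)
  have hc0 : ∀ j, 0 ≤ c j := fun j => Real.sqrt_nonneg _
  refine ⟨fun j => !₂[a j, s j * c j], fun j => ?_, fun i j hij => ?_⟩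
  · rw [EuclideanSpace.norm_eq]
    simp only [Fin.sum_univ_two, Real.norm_eq_abs, sq_abs]
    have : (!₂[a j, s j * c j] : EuclideanSpace ℝ (Fin 2)) 0 ^ 2 +
      (!₂[a j, s j * c j] : EuclideanSpace ℝ (Fin 2)) 1 ^ 2 = 1 := by
      show a j ^ 2 + (s j * c j) ^ 2 = 1
      rw [mul_pow, hc2, sq (s j), hs2]; ring
    rw [this, Real.sqrt_one]
  · have hin : inner ℝ (!₂[a i, s i * c i] : EuclideanSpace ℝ (Fin 2))
        (!₂[a j, s j * c j] : EuclideanSpace ℝ (Fin 2)) = a i * a j + s i * s j * (c i * c j) := by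
      rw [PiLp.inner_apply]
      simp only [Fin.sum_univ_two]
      show inner ℝ (a i) (a j) + inner ℝ (s i * c i) (s j * c j) = _
      simp only [RCLike.inner_apply, conj_trivial]
      ring
    rw [hin]
    by_cases hi : i = i0
    · have : c i = 0 := by simp only [hc]; rw [hi, ha0]; norm_num
      rw [this, hi, ha0, zero_mul, mul_zero, add_zero, one_mul]
      exact ha1 j (fun hj => hij (hi.trans hj.symm))
    by_cases hj : j = i0
    · have : c j = 0 := by simp only [hc]; rw [hj, ha0]; norm_num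
      rw [this, hj, ha0, mul_zero, mul_zero, add_zero, mul_one]
      exact ha1 i hi
    have hkey : c i * c j ≤ s i * s j * (b i j - a i * a j) := by
      have h1 := rev_cs (p := |p i|) (q := |p j|) (A := 1 - a i ^ 2) (B := 1 - a j ^ 2)
        (ρ := -(s i * s j * B (w i) (w j))) (hAj i) (hAj j) (abs_nonneg _) (abs_nonneg _)
        (by rw [sq_abs]; exact hpj i) (by rw [sq_abs]; exact hpj j) (by
          rw [sq_abs, sq_abs]
          refine le_trans (le_of_eq ?_) (hcs i j)
          have : (-(s i * s j * B (w i) (w j))) ^ 2 =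
            (s i * s i) * (s j * s j) * B (w i) (w j) ^ 2 := by ring
          rw [this, hs2, hs2]; ring)
      rw [hww, ← hsp i, ← hsp j] at h1
      linarith
    have hmm : |a i * a j| ≤ μ := by
      rw [abs_mul]
      have h1 := ha1 i hi
      have h2 := ha1 j hj
      nlinarith [abs_nonneg (a i), abs_nonneg (a j)]
    have hbb := h.off i j hij
    rw [abs_le] at hmm hbb ⊢
    have hss : s i * s j = 1 ∨ s i * s j = -1 := by
      simp only [hs]; split_ifs <;> norm_num
    have hcc : 0 ≤ c i * c j := mul_nonneg (hc0 i) (hc0 j)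
    rcases hss with h1 | h1
    · rw [h1] at hkey ⊢
      constructor <;> linarith [hmm.1, hmm.2, hbb.1, hbb.2]
    · rw [h1] at hkey ⊢
      constructor <;> linarith [hmm.1, hmm.2, hbb.1, hbb.2]

end Pool.Agent.EE
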