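import Pool.Agent.EE.Defs

/-! The width of the octahedron against the coherence, in exact form. -/

namespace Pool.Agent.EE

open Finset Pool.Agent.MP_943f09_an

/-- The minimal coherence `c(N,n)` of `N` unit vectors in `ℝ^n`. -/
noncomputable def minCoherence (N n : ℕ) : ℝ :=
  sInf {m : ℝ | ∃ Φ : Fin N → EuclideanSpace ℝ (Fin n),
    (∀ i, ‖Φ i‖ = 1) ∧ ∀ i j, i ≠ j → |inner ℝ (Φ i) (Φ j)| ≤ m}

/-- The Kolmogorov width `d_n(B_1^N, ℓ_∞^N)`. -/
noncomputable def octWidth (N n : ℕ) : ℝ :=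
  sInf {r : ℝ | ∃ L : Submodule ℝ (Fin N → ℝ), Module.finrank ℝ L ≤ n ∧
    ∀ x : Fin N → ℝ, ∑ i, |x i| ≤ 1 → ∃ y ∈ L, ‖x - y‖ ≤ r}

/-- The known inequality: a dictionary of coherence `m` approximates within `m / (1 + m)`. -/
theorem hasApprox_of_hasDict {N n : ℕ} {m : ℝ} (hm : 0 ≤ m) (h : HasDict N n m) :
    HasApprox N n (m / (1 + m)) := by
  obtain ⟨Φ, h1, h2⟩ := h
  -- the map `x ↦ (⟨Σ xᵢ Φᵢ, Φⱼ⟩)ⱼ`
  set T : EuclideanSpace ℝ (Fin n) →ₗ[ℝ] (Fin N → ℝ) :=
    LinearMap.pi fun j => (innerₗ _ (Φ j)) with hT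
  refine ⟨LinearMap.range T, ?_, fun x hx => ⟨(1 / (1 + m)) • T (∑ i, x i • Φ i), ?_, ?_⟩⟩
  · refine (LinearMap.finrank_range_le T).trans ?_
    rw [finrank_euclideanSpace, Fintype.card_fin]
  · exact Submodule.smul_mem _ _ ⟨_, rfl⟩
  · refine (pi_norm_le_iff_of_nonneg (div_nonneg hm (by linarith))).2 fun j => ?_
    rw [Real.norm_eq_abs, Pi.sub_apply, Pi.smul_apply, hT]
    simp only [LinearMap.pi_apply, innerₗ_apply_apply, inner_sum, inner_smul_right, smul_eq_mul]
    have e : x j - 1 / (1 + m) * ∑ i, x i * inner ℝ (Φ j) (Φ i) =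
        ∑ i, x i * ((if i = j then 1 else 0) - 1 / (1 + m) * inner ℝ (Φ j) (Φ i)) := by
      rw [mul_sum]
      simp only [mul_sub, sum_sub_distrib]
      congr 1
      · simp
      · exact sum_congr rfl fun i _ => by ring
    rw [e]
    calc |∑ i, x i * ((if i = j then 1 else 0) - 1 / (1 + m) * inner ℝ (Φ j) (Φ i))|
        ≤ ∑ i, |x i * ((if i = j then 1 else 0) - 1 / (1 + m) * inner ℝ (Φ j) (Φ i))| :=
          abs_sum_le_sum_abs _ _
      _ ≤ ∑ i, |x i| * (m / (1 + m)) := by
          refine sum_le_sum fun i _ => ?_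
          rw [abs_mul]
          refine mul_le_mul_of_nonneg_left ?_ (abs_nonneg _)
          by_cases hij : i = j
          · subst hij
            rw [if_pos rfl, real_inner_self_eq_norm_sq, h1 i]
            have : (1 : ℝ) - 1 / (1 + m) * 1 ^ 2 = m / (1 + m) := by
              field_simp; ring
            rw [this, abs_of_nonneg (div_nonneg hm (by linarith))]
          · rw [if_neg hij, zero_sub, abs_neg, abs_mul, abs_of_nonneg (by positivity)]
            have := h2 j i (Ne.symm hij)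
            calc 1 / (1 + m) * |inner ℝ (Φ j) (Φ i)| ≤ 1 / (1 + m) * m :=
                  mul_le_mul_of_nonneg_left this (by positivity)
              _ = m / (1 + m) := by ring
      _ = (∑ i, |x i|) * (m / (1 + m)) := by rw [sum_mul]
      _ ≤ 1 * (m / (1 + m)) :=
          mul_le_mul_of_nonneg_right hx (div_nonneg hm (by linarith))
      _ = m / (1 + m) := one_mul _

theorem HasDict.nonneg {N n : ℕ} (hN : 2 ≤ N) {m : ℝ} (h : HasDict N n m) : 0 ≤ m := by
  obtain ⟨Φ, -, h2⟩ := h
  exact (abs_nonneg _).trans (h2 ⟨0, by omega⟩ ⟨1, by omega⟩ (by simp))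

/-- Exact equality, given the passage from symmetric matrices to unit vectors. -/
theorem width_eq {N n : ℕ} (hn : 1 ≤ n) (hN : n < N)
    (H : ∀ (μ : ℝ) (b : Matrix (Fin N) (Fin N) ℝ), μ < 1 → Ind N n μ b → HasDict N n μ) :
    octWidth N n = minCoherence N n / (1 + minCoherence N n) := by
  have hN2 : 2 ≤ N := by omega
  have hMne : {m : ℝ | HasDict N n m}.Nonempty := ⟨1, hasDict_one hn⟩
  have hMbd : BddBelow {m : ℝ | HasDict N n m} := ⟨0, fun m hm => HasDict.nonneg hN2 hm⟩
  have hRbd : BddBelow {r : ℝ | HasApprox N n r} := ⟨0, fun r hr => HasApprox.nonneg hr⟩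
  have hRne : {r : ℝ | HasApprox N n r}.Nonempty :=
    ⟨_, hasApprox_of_hasDict zero_le_one (hasDict_one hn)⟩
  set c := minCoherence N n with hc
  have hcM : c = sInf {m : ℝ | HasDict N n m} := rfl
  have hd : octWidth N n = sInf {r : ℝ | HasApprox N n r} := rfl
  have hc0 : 0 ≤ c := by rw [hcM]; exact le_csInf hMne fun m hm => HasDict.nonneg hN2 hm
  have hc1 : c ≤ 1 := by rw [hcM]; exact csInf_le hMbd (hasDict_one hn)
  apply le_antisymm
  · -- the known direction
    set d := octWidth N n with hdd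
    have hd1 : d ≤ 1 / 2 := by
      rw [hd]
      refine (csInf_le hRbd (hasApprox_of_hasDict zero_le_one (hasDict_one hn))).trans ?_
      norm_num
    have hd2 : d / (1 - d) ≤ c := by
      rw [hcM]
      refine le_csInf hMne fun m hm => ?_
      have hm0 := HasDict.nonneg hN2 hm
      have h1 : d ≤ m / (1 + m) := by
        rw [hd]; exact csInf_le hRbd (hasApprox_of_hasDict hm0 hm)
      rw [le_div_iff₀ (by linarith)] at h1
      rw [div_le_iff₀ (by linarith)]
      linarith
    rw [div_le_iff₀ (by linarith)] at hd2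
    rw [le_div_iff₀ (by linarith)]
    linarith
  · rw [hd]
    refine le_csInf hRne fun r hr => ?_
    rw [div_le_iff₀ (by linarith)]
    by_cases h2 : r < 1 / 2
    · obtain ⟨b, hb⟩ := exists_ind hr h2
      have hr0 := HasApprox.nonneg hr
      have h3 : r / (1 - r) < 1 := by
        rw [div_lt_one (by linarith)]; linarith
      have h4 : c ≤ r / (1 - r) := by
        rw [hcM]; exact csInf_le hMbd (H _ b h3 hb)
      rw [le_div_iff₀ (by linarith)] at h4
      linarith
    · rw [not_lt] at h2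
      nlinarith

end Pool.Agent.EE
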